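import Mathlib
import Pool.Agent.Helper5.Dg.Bridge

/-!
Upper bounds for the dimensions of the final statement from the working definitions.
-/

namespace Pool.Agent.Helper5.Tri

open Pool.Agent.Helper5 Pool.Agent.Helper5.Dg

noncomputable section

variable {R : Type} {K : Hd.OpMod R → Prop} {K' : OpMod R → Prop}

lemma mor_up {X Y : OpMod R} {f : X.carrier →L[ℂ] Y.carrier} (h : IsMor X Y f) :
    Hd.IsMor (up X) (up Y) (fun x => f x) := ⟨bdd_of_clm (up X) (up Y) f, h⟩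

lemma proj_up (hR : Rel K K') (P : OpMod R) (h : Proj K' P) : Hd.Proj K (up P) := by
  intro E F hE hF q s hq hs hqs f hf
  obtain ⟨g, hg, hgf⟩ := h (dn E (hR.bdd E hE)) (dn F (hR.bdd F hF)) (hR.dn E hE) (hR.dn F hF)
    (clm hq.bdd) hq.comm (clm hs) hqs (clm (X := up P) hf.bdd) hf.comm
  exact ⟨fun x => g x, ⟨bdd_of_clm (up P) E g, hg⟩, hgf⟩

lemma resol_up (hR : Rel K K') {n : ℕ} {X : OpMod R} (Q : Resol K' n X) :
    Hd.IsResol K n (up X) (fun i => up (Q.P i)) (fun x => Q.e x) (fun i x => Q.d i x)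
      (fun x => Q.t x) (fun i x => Q.s i x) where
  mem i := hR.up _ (Q.mem i)
  proj i := proj_up hR _ (Q.proj i)
  zero := Q.zero
  mor_e := mor_up Q.mor_e
  mor_d i := mor_up (Q.mor_d i)
  bdd_t := bdd_of_clm (up X) (up (Q.P 0)) Q.t
  bdd_s i := bdd_of_clm (up (Q.P i)) (up (Q.P (i + 1))) (Q.s i)
  e_d := Q.e_d
  d_d := Q.d_d
  e_t := Q.e_t
  t_e := Q.t_e
  s_d := Q.s_d

lemma homDim_up_le (hR : Rel K K') {n : ℕ} {X : OpMod R} (Q : Resol K' n X) :
    Hd.homDim K (up X) ≤ n :=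
  sInf_le ⟨n, rfl, _, _, _, _, _, resol_up hR Q⟩

lemma up_dn (X : Hd.OpMod R) (h : ∀ r, Hd.IsBdd X X (X.act r)) : up (dn X h) = X := rfl

lemma homDim_dn_le (hR : Rel K K') {n : ℕ} (X : Hd.OpMod R) (hX : K X)
    (Q : Resol K' n (dn X (hR.bdd X hX))) : Hd.homDim K X ≤ n := by
  have h := homDim_up_le hR Q
  rw [up_dn] at h
  exact h

/-- Dimension at least one from non-projectivity. -/
lemma one_le_homDim (hR : Rel K K') {X : OpMod R} (h : ¬ Proj K' X) :
    1 ≤ Hd.homDim K (up X) := by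
  refine le_sInf ?_
  rintro N ⟨n, rfl, P, e, d, t, s, hQ⟩
  rcases Nat.eq_zero_or_pos n with h0 | h0
  · exfalso
    subst h0
    obtain ⟨Q⟩ := resol_dn hR hQ
    refine h ((Q.proj 0).retract Q.t Q.e (fun r x => ?_) Q.mor_e Q.e_t)
    have h1 : ∀ x, Q.t (Q.e x) = x := by
      intro x
      have := Q.t_e x
      rw [Q.zero 1 (by omega) (Q.s 0 x), map_zero, add_zero] at this
      exact this
    rw [← Q.e_t x, ← Q.mor_e, h1, Q.e_t]
  · exact_mod_cast h0

end

end Pool.Agent.Helper5.Tri
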