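import Mathlib
import Pool.Agent.Helper5.Dg.Tens
import Pool.Agent.Helper5.Tri.Up

/-!
The projective tensor product, and triangular data.
-/

namespace Pool.Agent.Helper5.Tri

open Pool.Agent.Helper5 Pool.Agent.Helper5.Dg

noncomputable section

section TP

/-- No balancing. -/
def z0 (U : Type) [NormedAddCommGroup U] [NormedSpace ℂ U] : Empty → U →L[ℂ] U :=
  fun e => e.elim

variable (U V : Type) [NormedAddCommGroup U] [NormedSpace ℂ U] [NormedAddCommGroup V]
  [NormedSpace ℂ V]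

/-- The projective tensor product. -/
def TP : Type := Tt (z0 U) (z0 V)

instance : NormedAddCommGroup (TP U V) := inferInstanceAs (NormedAddCommGroup (Tt (z0 U) (z0 V)))

instance : NormedSpace ℂ (TP U V) := inferInstanceAs (NormedSpace ℂ (Tt (z0 U) (z0 V)))

instance : CompleteSpace (TP U V) := inferInstanceAs (CompleteSpace (Tt (z0 U) (z0 V)))

variable {U V}

/-- Elementary tensors. -/
def tn (u : U) (v : V) : TP U V := el (z0 U) (z0 V) u v

lemma tn_add_left (u u' : U) (v : V) : tn (u + u') v = tn u v + tn u' v := el_add_left _ _ _ _ _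

lemma tn_smul_left (c : ℂ) (u : U) (v : V) : tn (c • u) v = c • tn u v := el_smul_left _ _ _ _ _

lemma tn_add_right (u : U) (v v' : V) : tn u (v + v') = tn u v + tn u v' := el_add_right _ _ _ _ _

lemma tn_smul_right (c : ℂ) (u : U) (v : V) : tn u (c • v) = c • tn u v := el_smul_right _ _ _ _ _

lemma tn_zero_left (v : V) : tn (0 : U) v = 0 := by
  have h := tn_smul_left (0 : ℂ) (0 : U) v
  rwa [zero_smul, zero_smul] at h

lemma norm_tn_le (u : U) (v : V) : ‖tn u v‖ ≤ ‖u‖ * ‖v‖ := norm_el_le _ _ _ _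

lemma TP_ext {Y : Type*} [NormedAddCommGroup Y] [NormedSpace ℂ Y] {f g : TP U V →L[ℂ] Y}
    (h : ∀ u v, f (tn u v) = g (tn u v)) (w : TP U V) : f w = g w :=
  Tt_ext (z0 U) (z0 V) h w

lemma exists_TPlift {Y : Type} [NormedAddCommGroup Y] [NormedSpace ℂ Y] [CompleteSpace Y]
    (b : U → V → Y) {C : ℝ} (hb : IsBil b C) :
    ∃ T : TP U V →L[ℂ] Y, ∀ u v, T (tn u v) = b u v :=
  ⟨tlift (z0 U) (z0 V) b hb (fun r => r.elim), fun u v => tlift_el _ _ _ _ _ _ _⟩

end TP

/-- Triangular data: `A` is the algebra of triangular matrices `[ℂ E; 0 ℂ]`. -/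
structure TD (A : Type) [NormedRing A] [NormedAlgebra ℂ A] (E : Type) [NormedAddCommGroup E]
    [NormedSpace ℂ E] where
  /-- First idempotent. -/
  e1 : A
  /-- Second idempotent. -/
  e2 : A
  /-- The off-diagonal part. -/
  io : E →L[ℂ] A
  /-- First coefficient. -/
  p1 : A →L[ℂ] ℂ
  /-- Second coefficient. -/
  p2 : A →L[ℂ] ℂ
  /-- The off-diagonal coefficient. -/
  pE : A →L[ℂ] E
  dec : ∀ a, a = p1 a • e1 + p2 a • e2 + io (pE a)
  p1_e1 : p1 e1 = 1
  p1_e2 : p1 e2 = 0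
  p1_io : ∀ x, p1 (io x) = 0
  p2_e1 : p2 e1 = 0
  p2_e2 : p2 e2 = 1
  p2_io : ∀ x, p2 (io x) = 0
  pE_e1 : pE e1 = 0
  pE_e2 : pE e2 = 0
  pE_io : ∀ x, pE (io x) = x
  mul_e1 : ∀ a, a * e1 = p1 a • e1
  e1_mul : ∀ a, e1 * a = p1 a • e1 + io (pE a)
  mul_e2 : ∀ a, a * e2 = p2 a • e2 + io (pE a)
  e2_mul : ∀ a, e2 * a = p2 a • e2
  mul_io : ∀ a x, a * io x = p1 a • io x
  io_mul : ∀ x a, io x * a = p2 a • io x

end

end Pool.Agent.Helper5.Tri
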