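import Mathlib
import Pool.Agent.Helper5.Tri.Tp

/-!
Direct sums and resolutions of length one.
-/

namespace Pool.Agent.Helper5.Tri

open Pool.Agent.Helper5 Pool.Agent.Helper5.Dg

noncomputable section

variable {R : Type} {K : OpMod R → Prop}

/-- The direct sum. -/
def dsum (M N : OpMod R) : OpMod R where
  carrier := M.carrier × N.carrier
  act r := (M.act r).prodMap (N.act r)

/-- Pairs. -/
def mkp (M N : OpMod R) (x : M.carrier) (y : N.carrier) : (dsum M N).carrier := (x, y)

lemma mkp_act (M N : OpMod R) (r : R) (x : M.carrier) (y : N.carrier) :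
    (dsum M N).act r (mkp M N x y) = mkp M N (M.act r x) (N.act r y) := rfl

lemma mkp_add (M N : OpMod R) (x x' : M.carrier) (y y' : N.carrier) :
    mkp M N x y + mkp M N x' y' = mkp M N (x + x') (y + y') := rfl

lemma exists_mkp (M N : OpMod R) (z : (dsum M N).carrier) : ∃ x y, z = mkp M N x y :=
  ⟨z.1, z.2, rfl⟩

lemma proj_dsum {M N : OpMod R} (hM : Proj K M) (hN : Proj K N) : Proj K (dsum M N) := by
  intro E F hE hF q hq s hs f hf
  obtain ⟨f1, hf1⟩ : ∃ f1 : M.carrier →L[ℂ] F.carrier, ∀ x, f1 x = f (mkp M N x 0) :=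
    ⟨(show M.carrier × N.carrier →L[ℂ] F.carrier from f).comp
      (ContinuousLinearMap.inl ℂ M.carrier N.carrier), fun x => rfl⟩
  obtain ⟨f2, hf2⟩ : ∃ f2 : N.carrier →L[ℂ] F.carrier, ∀ y, f2 y = f (mkp M N 0 y) :=
    ⟨(show M.carrier × N.carrier →L[ℂ] F.carrier from f).comp
      (ContinuousLinearMap.inr ℂ M.carrier N.carrier), fun x => rfl⟩
  obtain ⟨g1, h1, h1'⟩ := hM E F hE hF q hq s hs f1 (fun r x => by
    rw [hf1, hf1, ← hf, mkp_act, map_zero])
  obtain ⟨g2, h2, h2'⟩ := hN E F hE hF q hq s hs f2 (fun r x => by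
    rw [hf2, hf2, ← hf, mkp_act, map_zero])
  obtain ⟨g, hg⟩ : ∃ g : (dsum M N).carrier →L[ℂ] E.carrier,
      ∀ x y, g (mkp M N x y) = g1 x + g2 y :=
    ⟨show M.carrier × N.carrier →L[ℂ] E.carrier from
      g1.comp (ContinuousLinearMap.fst ℂ M.carrier N.carrier) +
        g2.comp (ContinuousLinearMap.snd ℂ M.carrier N.carrier), fun x y => rfl⟩
  refine ⟨g, fun r z => ?_, fun z => ?_⟩
  · obtain ⟨x, y, rfl⟩ := exists_mkp M N z
    rw [mkp_act, hg, hg, h1, h2, map_add]
  · obtain ⟨x, y, rfl⟩ := exists_mkp M N z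
    rw [hg, map_add, h1', h2', hf1, hf2, ← map_add, mkp_add, add_zero, zero_add]

/-- The zero module. -/
def zmod (R : Type) : OpMod R where
  carrier := PUnit
  act _ := 0

lemma zmod_eq (x y : (zmod R).carrier) : x = y := Subsingleton.elim (α := PUnit) x y

lemma proj_zmod : Proj K (zmod R) := by
  intro E F hE hF q hq s hs f hf
  refine ⟨0, fun r x => ?_, fun x => ?_⟩
  · rw [zero_apply, zero_apply, map_zero]
  · rw [zero_apply, map_zero, zmod_eq x 0, map_zero]

/-- The modules of a short resolution. -/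
def shP (Z' P : OpMod R) : ℕ → OpMod R
  | 0 => P
  | 1 => Z'
  | _ + 2 => zmod R

/-- The differentials of a short resolution. -/
def shd {Z' P Z : OpMod R} (S : Ses K Z' P Z) :
    ∀ i, (shP Z' P (i + 1)).carrier →L[ℂ] (shP Z' P i).carrier
  | 0 => S.i
  | _ + 1 => 0

/-- The homotopy of a short resolution. -/
def shs {Z' P Z : OpMod R} (S : Ses K Z' P Z) :
    ∀ i, (shP Z' P i).carrier →L[ℂ] (shP Z' P (i + 1)).carrier
  | 0 => S.k
  | _ + 1 => 0

/-- Resolutions of length one. -/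
def resol_one (hz : K (zmod R)) {Z' P Z : OpMod R} (hZ' : K Z') (hP : K P) (h1 : Proj K Z')
    (h0 : Proj K P) (S : Ses K Z' P Z) : Resol K 1 Z where
  P := shP Z' P
  mem
    | 0 => hP
    | 1 => hZ'
    | _ + 2 => hz
  proj
    | 0 => h0
    | 1 => h1
    | _ + 2 => proj_zmod
  zero
    | 0, h, _ => absurd h (by omega)
    | 1, h, _ => absurd h (by omega)
    | _ + 2, _, x => zmod_eq x 0
  e := S.d
  d := shd S
  mor_e := S.mor_d
  mor_d
    | 0 => S.mor_i
    | i + 1 => fun r x => by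
      show (0 : (shP Z' P (i + 1)).carrier) = (shP Z' P (i + 1)).act r 0
      rw [map_zero]
  t := S.t
  s := shs S
  e_d x := S.d_i x
  d_d
    | 0, x => by
      show S.i 0 = 0
      rw [map_zero]
    | i + 1, x => rfl
  e_t := S.d_t
  t_e x := by
    rw [add_comm]
    exact S.split x
  s_d
    | 0, x => by
      have h : ∀ x : Z'.carrier, S.k (S.i x) + 0 = x := fun x => by rw [S.k_i, add_zero]
      exact h x
    | i + 1, x => zmod_eq _ _

end

end Pool.Agent.Helper5.Tri
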