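import Mathlib
import Pool.Agent.Helper5.Tri.Gen

/-!
Left modules over the triangular algebra.
-/

namespace Pool.Agent.Helper5.Tri

open Pool.Agent.Helper5 Pool.Agent.Helper5.Dg

noncomputable section

variable {A : Type} [NormedRing A] [NormedAlgebra ℂ A] {E : Type} [NormedAddCommGroup E]
  [NormedSpace ℂ E] (D : TD A E)

namespace TD

lemma p1_mul (a b : A) : D.p1 (a * b) = D.p1 a * D.p1 b := by
  have h := congrArg D.p1 (D.mul_e1 (a * b))
  rw [mul_assoc, D.mul_e1, mul_smul_comm, D.mul_e1, smul_smul, map_smul, map_smul, D.p1_e1,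
    smul_eq_mul, smul_eq_mul, mul_one, mul_one] at h
  rw [← h, mul_comm]

lemma p2_mul (a b : A) : D.p2 (a * b) = D.p2 a * D.p2 b := by
  have h := congrArg D.p2 (D.e2_mul (a * b))
  rw [← mul_assoc, D.e2_mul, smul_mul_assoc, D.e2_mul, smul_smul, map_smul, map_smul, D.p2_e2,
    smul_eq_mul, smul_eq_mul, mul_one, mul_one] at h
  rw [← h]

lemma pE_mul (a b : A) : D.pE (a * b) = D.p1 a • D.pE b + D.p2 b • D.pE a := by
  have h := congrArg D.pE (D.e1_mul (a * b))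
  rw [← mul_assoc, D.e1_mul, add_mul, smul_mul_assoc, D.e1_mul, D.io_mul, map_add, map_smul,
    map_add, map_smul, D.pE_e1, D.pE_io, map_smul, D.pE_io, map_add, map_smul, D.pE_e1,
    D.pE_io, smul_zero, zero_add, smul_zero, zero_add] at h
  exact h.symm

end TD

section VO

variable (T : Type) [NormedAddCommGroup T] [NormedSpace ℂ T] [CompleteSpace T]

/-- Modules at the first vertex. -/
def vone : OpMod A where
  carrier := T
  act a := D.p1 a • ContinuousLinearMap.id ℂ T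

lemma vone_act (a : A) (w : T) : (vone D T).act a w = D.p1 a • w := rfl

lemma vone_left : LeftMod A (vone D T) where
  add a b x := by
    have h : ∀ x : T, D.p1 (a + b) • x = D.p1 a • x + D.p1 b • x := fun x => by
      rw [map_add, add_smul]
    exact h x
  smul c a x := by
    have h : ∀ x : T, D.p1 (c • a) • x = c • D.p1 a • x := fun x => by
      rw [map_smul, smul_eq_mul, mul_smul]
    exact h x
  mul a b x := by
    have h : ∀ x : T, D.p1 (a * b) • x = D.p1 a • D.p1 b • x := fun x => by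
      rw [D.p1_mul, mul_smul]
    exact h x
  bound := ⟨‖D.p1‖, fun a x => by
    have h : ∀ x : T, ‖D.p1 a • x‖ ≤ ‖D.p1‖ * ‖a‖ * ‖x‖ := fun x => by
      rw [norm_smul]
      exact mul_le_mul_of_nonneg_right (D.p1.le_opNorm a) (norm_nonneg _)
    exact h x⟩

lemma vone_proj : Proj (LeftMod A) (vone D T) := by
  intro M F hM hF q hq s hs f hf
  have hf' : ∀ (a : A) (w : T), f (D.p1 a • w : T) = F.act a (f w) := hf
  obtain ⟨g, hg⟩ : ∃ g : T →L[ℂ] M.carrier, ∀ w, g w = M.act D.e1 (s (f w)) :=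
    ⟨(M.act D.e1).comp (s.comp f), fun w => rfl⟩
  have h1 : ∀ (a : A) (w : T), g (D.p1 a • w) = M.act a (g w) := by
    intro a w
    rw [map_smul, hg, ← hM.mul, D.mul_e1, hM.smul]
  have h2 : ∀ w : T, q (g w) = f w := by
    intro w
    rw [hg, hq, hs, ← hf', D.p1_e1, one_smul]
  exact ⟨g, h1, h2⟩

end VO

section VT

variable (V : Type) [NormedAddCommGroup V] [NormedSpace ℂ V] [CompleteSpace V]

/-- Tensoring with a vector. -/
def tnL (x : E) : V →L[ℂ] TP E V :=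
  LinearMap.mkContinuous ({ toFun := fun v => tn x v
                            map_add' := fun v v' => tn_add_right _ _ _
                            map_smul' := fun c v => tn_smul_right _ _ _ } :
    V →ₗ[ℂ] TP E V) ‖x‖ (fun v => norm_tn_le x v)

/-- Modules induced from the second vertex. -/
def vtwo : OpMod A where
  carrier := TP E V × V
  act a := (D.p1 a • ContinuousLinearMap.fst ℂ (TP E V) V +
    (tnL V (D.pE a)).comp (ContinuousLinearMap.snd ℂ (TP E V) V)).prod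
      (D.p2 a • ContinuousLinearMap.snd ℂ (TP E V) V)

/-- Pairs. -/
def mk2 (w : TP E V) (v : V) : (vtwo D V).carrier := (w, v)

lemma mk2_act (a : A) (w : TP E V) (v : V) : (vtwo D V).act a (mk2 D V w v) =
    mk2 D V (D.p1 a • w + tn (D.pE a) v) (D.p2 a • v) := rfl

lemma mk2_add (w w' : TP E V) (v v' : V) : mk2 D V w v + mk2 D V w' v' =
    mk2 D V (w + w') (v + v') := rfl

lemma mk2_smul (c : ℂ) (w : TP E V) (v : V) : c • mk2 D V w v = mk2 D V (c • w) (c • v) := rfl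

lemma exists_mk2 (z : (vtwo D V).carrier) : ∃ w v, z = mk2 D V w v := ⟨z.1, z.2, rfl⟩

lemma vtwo_left : LeftMod A (vtwo D V) where
  add a b x := by
    obtain ⟨w, v, rfl⟩ := exists_mk2 D V x
    rw [mk2_act, mk2_act, mk2_act, mk2_add, map_add, map_add, map_add, add_smul, add_smul,
      tn_add_left]
    congr 1
    abel
  smul c a x := by
    obtain ⟨w, v, rfl⟩ := exists_mk2 D V x
    rw [mk2_act, mk2_act, mk2_smul, map_smul, map_smul, map_smul, smul_eq_mul, smul_eq_mul,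
      mul_smul, mul_smul, tn_smul_left, smul_add]
  mul a b x := by
    obtain ⟨w, v, rfl⟩ := exists_mk2 D V x
    rw [mk2_act, mk2_act, mk2_act, D.p1_mul, D.p2_mul, D.pE_mul, mul_smul, mul_smul,
      tn_add_left, tn_smul_left, tn_smul_left, smul_add, tn_smul_right, add_assoc]
  bound := by
    refine ⟨‖D.p1‖ + ‖D.pE‖ + ‖D.p2‖, fun a x => ?_⟩
    obtain ⟨w, v, rfl⟩ := exists_mk2 D V x
    rw [mk2_act]
    have hw : ‖w‖ ≤ ‖mk2 D V w v‖ := norm_fst_le (E := TP E V) (w, v)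
    have hv : ‖v‖ ≤ ‖mk2 D V w v‖ := norm_snd_le (E := TP E V) (w, v)
    have h1 := D.p1.le_opNorm a
    have h2 := D.p2.le_opNorm a
    have h3 := D.pE.le_opNorm a
    have h4 : ‖D.p1 a • w + tn (D.pE a) v‖ ≤
        (‖D.p1‖ + ‖D.pE‖ + ‖D.p2‖) * ‖a‖ * ‖mk2 D V w v‖ := by
      calc _ ≤ ‖D.p1 a • w‖ + ‖tn (D.pE a) v‖ := norm_add_le _ _
        _ ≤ ‖D.p1 a‖ * ‖w‖ + ‖D.pE a‖ * ‖v‖ :=
            add_le_add (norm_smul _ _).le (norm_tn_le _ _)
        _ ≤ (‖D.p1‖ * ‖a‖) * ‖mk2 D V w v‖ + (‖D.pE‖ * ‖a‖) * ‖mk2 D V w v‖ := by gcongr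
        _ ≤ (‖D.p1‖ * ‖a‖) * ‖mk2 D V w v‖ + (‖D.pE‖ * ‖a‖) * ‖mk2 D V w v‖ +
              (‖D.p2‖ * ‖a‖) * ‖mk2 D V w v‖ := le_add_of_nonneg_right (by positivity)
        _ = _ := by ring
    have h5 : ‖D.p2 a • v‖ ≤ (‖D.p1‖ + ‖D.pE‖ + ‖D.p2‖) * ‖a‖ * ‖mk2 D V w v‖ := by
      calc _ = ‖D.p2 a‖ * ‖v‖ := norm_smul _ _
        _ ≤ (‖D.p2‖ * ‖a‖) * ‖mk2 D V w v‖ := by gcongr
        _ ≤ (‖D.p1‖ * ‖a‖) * ‖mk2 D V w v‖ + (‖D.pE‖ * ‖a‖) * ‖mk2 D V w v‖ +
              (‖D.p2‖ * ‖a‖) * ‖mk2 D V w v‖ := le_add_of_nonneg_left (by positivity)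
        _ = _ := by ring
    exact max_le h4 h5

lemma vtwo_proj : Proj (LeftMod A) (vtwo D V) := by
  intro M F hM hF q hq s hs f hf
  obtain ⟨C, hC⟩ := hM.bound
  obtain ⟨f2, hf2⟩ : ∃ f2 : V →L[ℂ] F.carrier, ∀ v, f2 v = f (mk2 D V 0 v) :=
    ⟨(show TP E V × V →L[ℂ] F.carrier from f).comp (ContinuousLinearMap.inr ℂ (TP E V) V),
      fun x => rfl⟩
  obtain ⟨f1, hf1⟩ : ∃ f1 : TP E V →L[ℂ] F.carrier, ∀ w, f1 w = f (mk2 D V w 0) :=
    ⟨(show TP E V × V →L[ℂ] F.carrier from f).comp (ContinuousLinearMap.inl ℂ (TP E V) V),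
      fun x => rfl⟩
  have hsplit : ∀ w v, f (mk2 D V w v) = f1 w + f2 v := by
    intro w v
    rw [hf1, hf2, ← map_add, mk2_add, add_zero, zero_add]
  have hC' : ∀ x : E, ∀ y, ‖M.act (D.io x) y‖ ≤ (|C| * ‖D.io‖) * ‖x‖ * ‖y‖ := by
    intro x y
    calc _ ≤ C * ‖D.io x‖ * ‖y‖ := hC _ _
      _ ≤ |C| * (‖D.io‖ * ‖x‖) * ‖y‖ := by
          have h1 := le_abs_self C
          have h2 := D.io.le_opNorm x
          gcongr
      _ = _ := by ring
  obtain ⟨μ, hμ⟩ := exists_TPlift (U := E) (V := V) (Y := M.carrier)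
    (fun x v => M.act (D.io x) (s (f2 v))) (C := |C| * ‖D.io‖ * (‖s‖ * ‖f2‖))
    { add_left := fun x x' v => by rw [map_add, hM.add]
      smul_left := fun c x v => by rw [map_smul, hM.smul]
      add_right := fun x v v' => by rw [map_add, map_add, map_add]
      smul_right := fun c x v => by rw [map_smul, map_smul, map_smul]
      nonneg := by positivity
      bound := fun x v => by
        refine (hC' x _).trans ?_
        have h1 : ‖s (f2 v)‖ ≤ ‖s‖ * (‖f2‖ * ‖v‖) :=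
          (s.le_opNorm _).trans (mul_le_mul_of_nonneg_left (f2.le_opNorm v) (norm_nonneg _))
        calc _ ≤ |C| * ‖D.io‖ * ‖x‖ * (‖s‖ * (‖f2‖ * ‖v‖)) := by gcongr
          _ = _ := by ring }
  obtain ⟨g, hg⟩ : ∃ g : (vtwo D V).carrier →L[ℂ] M.carrier,
      ∀ w v, g (mk2 D V w v) = μ w + M.act D.e2 (s (f2 v)) :=
    ⟨show TP E V × V →L[ℂ] M.carrier from μ.comp (ContinuousLinearMap.fst ℂ (TP E V) V) +
      ((M.act D.e2).comp (s.comp f2)).comp (ContinuousLinearMap.snd ℂ (TP E V) V),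
      fun w v => rfl⟩
  have hμa : ∀ (a : A) w, M.act a (μ w) = D.p1 a • μ w := by
    intro a w
    refine TP_ext (f := (M.act a).comp μ) (g := D.p1 a • μ) (fun x v => ?_) w
    rw [ContinuousLinearMap.comp_apply, hμ, smul_apply, hμ, ← hM.mul, D.mul_io, hM.smul]
  have hμq : ∀ w, q (μ w) = f1 w := by
    intro w
    refine TP_ext (f := q.comp μ) (g := f1) (fun x v => ?_) w
    rw [ContinuousLinearMap.comp_apply, hμ, hq, hs, hf2, hf1, ← hf, mk2_act, D.p1_io, D.pE_io,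
      D.p2_io, zero_smul, zero_smul, zero_add]
  refine ⟨g, fun a z => ?_, fun z => ?_⟩
  · obtain ⟨w, v, rfl⟩ := exists_mk2 D V z
    rw [mk2_act, hg, hg, map_add, map_smul, hμ, map_add, hμa, ← hM.mul, D.mul_e2, hM.add,
      hM.smul, map_smul, map_smul, map_smul]
    abel
  · obtain ⟨w, v, rfl⟩ := exists_mk2 D V z
    rw [hg, map_add, hμq, hq, hs, hsplit, hf2, ← hf, mk2_act, D.p2_e2, D.pE_e2, one_smul,
      smul_zero, tn_zero_left, add_zero]

end VT

end

end Pool.Agent.Helper5.Tri
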