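import Mathlib
import Pool.Agent.Helper5.Tri.Left

/-!
The resolution of a left module over the triangular algebra.
-/

namespace Pool.Agent.Helper5.Tri

open Pool.Agent.Helper5 Pool.Agent.Helper5.Dg

noncomputable section

variable {A : Type} [NormedRing A] [NormedAlgebra ℂ A] {E : Type} [NormedAddCommGroup E]
  [NormedSpace ℂ E] (D : TD A E) (X : OpMod A)

lemma tn_zero_right {U V : Type} [NormedAddCommGroup U] [NormedSpace ℂ U]
    [NormedAddCommGroup V] [NormedSpace ℂ V] (u : U) : tn u (0 : V) = 0 := by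
  have h := tn_smul_right (0 : ℂ) u (0 : V)
  rwa [zero_smul, zero_smul] at h

/-- The part killed by the second idempotent. -/
def NS : Submodule ℂ X.carrier := LinearMap.ker (X.act D.e2 : X.carrier →ₗ[ℂ] X.carrier)

lemma mem_NS (x : X.carrier) : x ∈ NS D X ↔ X.act D.e2 x = 0 := LinearMap.mem_ker

lemma NS_closed : IsClosed (NS D X : Set X.carrier) := by
  have : (NS D X : Set X.carrier) = {x | X.act D.e2 x = 0} := by
    ext x
    exact mem_NS D X x
  rw [this]
  exact isClosed_eq (X.act D.e2).continuous continuous_const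

/-- The range of the second idempotent. -/
def V2 : Submodule ℂ X.carrier where
  carrier := {x | X.act D.e2 x = x}
  add_mem' := fun {a b} ha hb => by
    show X.act D.e2 (a + b) = a + b
    rw [map_add, ha, hb]
  zero_mem' := map_zero _
  smul_mem' := fun c a ha => by
    show X.act D.e2 (c • a) = c • a
    rw [map_smul, ha]

lemma mem_V2 (x : X.carrier) : x ∈ V2 D X ↔ X.act D.e2 x = x := Iff.rfl

lemma V2_closed : IsClosed (V2 D X : Set X.carrier) :=
  isClosed_eq (X.act D.e2).continuous continuous_id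

instance : CompleteSpace (V2 D X) := (V2_closed D X).completeSpace_coe

variable {X} (hX : LeftMod A X)

include hX in
lemma NS_inv : ∀ a, ∀ x ∈ NS D X, X.act a x ∈ NS D X := by
  intro a x hx
  rw [mem_NS] at hx ⊢
  rw [← hX.mul, D.e2_mul, hX.smul, hx, smul_zero]

/-- The part killed by the second idempotent, as a module. -/
def NM : OpMod A := subMod X (NS D X) (NS_closed D X) (NS_inv D hX)

/-- The inclusion. -/
def inN : (NM D hX).carrier →L[ℂ] X.carrier := subIncl X (NS D X) (NS_closed D X) (NS_inv D hX)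

lemma inN_act (a : A) (n : (NM D hX).carrier) : inN D hX ((NM D hX).act a n) =
    X.act a (inN D hX n) := rfl

lemma inN_inj {n n' : (NM D hX).carrier} (h : inN D hX n = inN D hX n') : n = n' :=
  subIncl_inj h

lemma inN_e2 (n : (NM D hX).carrier) : X.act D.e2 (inN D hX n) = 0 :=
  (mem_NS D X _).1 (subIncl_mem n)

/-- Corestriction. -/
lemma exists_liftN {V : Type*} [NormedAddCommGroup V] [NormedSpace ℂ V] (f : V →L[ℂ] X.carrier)
    (hf : ∀ v, X.act D.e2 (f v) = 0) :
    ∃ g : V →L[ℂ] (NM D hX).carrier, ∀ v, inN D hX (g v) = f v :=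
  ⟨subLift X (NS D X) (NS_closed D X) (NS_inv D hX) f fun v => (mem_NS D X _).2 (hf v),
    fun v => rfl⟩

/-- Corestriction. -/
lemma exists_lift2 {V : Type*} [NormedAddCommGroup V] [NormedSpace ℂ V] (f : V →L[ℂ] X.carrier)
    (hf : ∀ v, X.act D.e2 (f v) = f v) :
    ∃ g : V →L[ℂ] V2 D X, ∀ v, ((g v : V2 D X) : X.carrier) = f v :=
  ⟨f.codRestrict (V2 D X) fun v => (mem_V2 D X _).2 (hf v), fun v => rfl⟩

lemma NM_left : LeftMod A (NM D hX) :=
  leftMod_subClosed A X (NS D X) (NS_closed D X) (NS_inv D hX) hX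

include hX in
lemma act_null (a : A) (y : X.carrier) :
    X.act a y - (X.act a (X.act D.e1 y) + X.act a (X.act D.e2 y)) = 0 := by
  have h : a * D.e1 + a * D.e2 = a := by
    rw [D.mul_e1, D.mul_e2, ← add_assoc]
    exact (D.dec a).symm
  rw [← hX.mul, ← hX.mul, ← hX.add, h, sub_self]

include hX in
lemma act_of_e2 (a : A) {x : X.carrier} (hx : X.act D.e2 x = 0) :
    X.act a x = D.p1 a • X.act D.e1 x := by
  have h := act_null D hX a x
  rw [hx, map_zero, add_zero, ← hX.mul, D.mul_e1, hX.smul] at h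
  exact sub_eq_zero.1 h

lemma NM_proj : Proj (LeftMod A) (NM D hX) := by
  intro M F hM hF q hq s hs f hf
  obtain ⟨g, hg⟩ : ∃ g : (NM D hX).carrier →L[ℂ] M.carrier, ∀ n, g n =
      M.act D.e1 (s (f ((NM D hX).act D.e1 n))) +
        (s (f (n - (NM D hX).act D.e1 n)) -
          (M.act D.e1 (s (f (n - (NM D hX).act D.e1 n))) +
            M.act D.e2 (s (f (n - (NM D hX).act D.e1 n))))) := by
    have hT : ∃ T : (NM D hX).carrier →L[ℂ] (NM D hX).carrier, ∀ n,
        T n = n - (NM D hX).act D.e1 n :=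
      ⟨ContinuousLinearMap.id ℂ _ - (NM D hX).act D.e1, fun n => rfl⟩
    obtain ⟨T, hT⟩ := hT
    refine ⟨(M.act D.e1).comp (s.comp (f.comp ((NM D hX).act D.e1))) +
      (s.comp (f.comp T) - ((M.act D.e1).comp (s.comp (f.comp T)) +
        (M.act D.e2).comp (s.comp (f.comp T)))), fun n => ?_⟩
    rw [← hT]
    rfl
  have ha : ∀ a n, (NM D hX).act a n = D.p1 a • (NM D hX).act D.e1 n := by
    intro a n
    refine inN_inj D hX ?_
    rw [map_smul, inN_act, inN_act]
    exact act_of_e2 D hX a (inN_e2 D hX n)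
  refine ⟨g, fun a n => ?_, fun n => ?_⟩
  · have h1 : (NM D hX).act D.e1 ((NM D hX).act D.e1 n) = (NM D hX).act D.e1 n := by
      rw [← (NM_left D hX).mul, D.mul_e1, D.p1_e1, one_smul]
    rw [hg, hg, ha a n, map_smul, h1, sub_self, map_zero, map_zero, map_zero, map_zero,
      add_zero, sub_zero, add_zero, map_smul, map_smul, map_smul, map_add, ← hM.mul, D.mul_e1,
      hM.smul, map_sub, map_add, act_null D hM, add_zero]
  · rw [hg, map_add, map_sub, map_add, hq, hq, hq, hs, hs, ← hf, ← hf, ← hf]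
    have h1 : (NM D hX).act D.e1 ((NM D hX).act D.e1 n) = (NM D hX).act D.e1 n := by
      rw [← (NM_left D hX).mul, D.mul_e1, D.p1_e1, one_smul]
    have h2 : ∀ n, (NM D hX).act D.e2 n = 0 := by
      intro n
      refine inN_inj D hX ?_
      rw [inN_act, inN_e2, map_zero]
    have h3 : (NM D hX).act D.e1 (n - (NM D hX).act D.e1 n) = 0 := by
      rw [map_sub, h1, sub_self]
    rw [h3, h2, map_zero, add_zero, sub_zero, h1, ← map_add, add_sub_cancel]

include hX in
lemma exists_m : ∃ m : TP E (V2 D X) →L[ℂ] X.carrier,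
    ∀ x v, m (tn x v) = X.act (D.io x) (v : X.carrier) := by
  obtain ⟨C, hC⟩ := hX.bound
  exact exists_TPlift (U := E) (V := V2 D X) (Y := X.carrier)
    (fun x v => X.act (D.io x) (v : X.carrier)) (C := |C| * ‖D.io‖)
    { add_left := fun x x' v => by rw [map_add, hX.add]
      smul_left := fun c x v => by rw [map_smul, hX.smul]
      add_right := fun x v v' => by rw [Submodule.coe_add, map_add]
      smul_right := fun c x v => by rw [Submodule.coe_smul, map_smul]
      nonneg := by positivity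
      bound := fun x v => by
        calc _ ≤ C * ‖D.io x‖ * ‖(v : X.carrier)‖ := hC _ _
          _ ≤ |C| * (‖D.io‖ * ‖x‖) * ‖(v : X.carrier)‖ := by
              have h1 := le_abs_self C
              have h2 := D.io.le_opNorm x
              gcongr
          _ = |C| * ‖D.io‖ * ‖x‖ * ‖v‖ := by
              rw [Submodule.coe_norm]
              ring }

lemma exists_ses : Nonempty (Ses (LeftMod A) (vone D (TP E (V2 D X)))
    (dsum (NM D hX) (vtwo D (V2 D X))) X) := by
  obtain ⟨m, hm⟩ := exists_m D hX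
  have hma : ∀ (a : A) w, X.act a (m w) = D.p1 a • m w := by
    intro a w
    refine TP_ext (f := (X.act a).comp m) (g := D.p1 a • m) (fun x v => ?_) w
    rw [ContinuousLinearMap.comp_apply, hm, smul_apply, hm, ← hX.mul, D.mul_io, hX.smul]
  have hm2 : ∀ w, X.act D.e2 (m w) = 0 := fun w => by rw [hma, D.p1_e2, zero_smul]
  obtain ⟨mN, hmN⟩ := exists_liftN D hX m hm2
  obtain ⟨tN, htN⟩ := exists_liftN D hX (ContinuousLinearMap.id ℂ X.carrier - X.act D.e2)
    (fun v => by
      show X.act D.e2 (v - X.act D.e2 v) = 0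
      rw [map_sub, ← hX.mul, D.e2_mul, D.p2_e2, one_smul, sub_self])
  have htN' : ∀ x, inN D hX (tN x) = x - X.act D.e2 x := htN
  obtain ⟨t2, ht2⟩ := exists_lift2 D (X.act D.e2) (fun v => by
    rw [← hX.mul, D.e2_mul, D.p2_e2, one_smul])
  have ht2e : ∀ v : V2 D X, t2 (v : X.carrier) = v := fun v => Subtype.ext (by
    rw [ht2]
    exact v.2)
  obtain ⟨i, hi⟩ : ∃ i : TP E (V2 D X) →L[ℂ] (dsum (NM D hX) (vtwo D (V2 D X))).carrier,
      ∀ w, i w = mkp _ _ (-mN w) (mk2 D _ w 0) :=
    ⟨(-mN).prod ((ContinuousLinearMap.inl ℂ (TP E (V2 D X)) (V2 D X))), fun w => rfl⟩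
  obtain ⟨d, hd⟩ : ∃ d : (dsum (NM D hX) (vtwo D (V2 D X))).carrier →L[ℂ] X.carrier,
      ∀ n w (v : V2 D X), d (mkp _ _ n (mk2 D _ w v)) = inN D hX n + m w + (v : X.carrier) :=
    ⟨show (NM D hX).carrier × (TP E (V2 D X) × V2 D X) →L[ℂ] X.carrier from
      (inN D hX).comp (ContinuousLinearMap.fst ℂ _ _) +
        m.comp ((ContinuousLinearMap.fst ℂ _ _).comp (ContinuousLinearMap.snd ℂ _ _)) +
        (V2 D X).subtypeL.comp
          ((ContinuousLinearMap.snd ℂ _ _).comp (ContinuousLinearMap.snd ℂ _ _)),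
      fun n w v => rfl⟩
  obtain ⟨k, hk⟩ : ∃ k : (dsum (NM D hX) (vtwo D (V2 D X))).carrier →L[ℂ] TP E (V2 D X),
      ∀ n w (v : V2 D X), k (mkp _ _ n (mk2 D _ w v)) = w :=
    ⟨show (NM D hX).carrier × (TP E (V2 D X) × V2 D X) →L[ℂ] TP E (V2 D X) from
      (ContinuousLinearMap.fst ℂ _ _).comp (ContinuousLinearMap.snd ℂ _ _),
      fun n w v => rfl⟩
  obtain ⟨t, ht⟩ : ∃ t : X.carrier →L[ℂ] (dsum (NM D hX) (vtwo D (V2 D X))).carrier,
      ∀ x, t x = mkp _ _ (tN x) (mk2 D _ 0 (t2 x)) :=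
    ⟨tN.prod ((0 : X.carrier →L[ℂ] TP E (V2 D X)).prod t2), fun x => rfl⟩
  refine ⟨{ i := i, d := d, k := k, t := t, mor_i := ?_, mor_d := ?_, k_i := ?_, d_t := ?_,
            split := ?_ }⟩
  · have h : ∀ (a : A) (w : TP E (V2 D X)), i (D.p1 a • w) =
        (dsum (NM D hX) (vtwo D (V2 D X))).act a (i w) := by
      intro a w
      rw [hi, hi, mkp_act, mk2_act, tn_zero_right, smul_zero, add_zero, map_smul]
      congr 1
      refine inN_inj D hX ?_
      rw [inN_act, map_neg, map_neg, map_smul, hmN, map_neg, hma]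
    exact h
  · intro a z
    obtain ⟨n, y, rfl⟩ := exists_mkp _ _ z
    obtain ⟨w, v, rfl⟩ := exists_mk2 _ _ y
    rw [mkp_act, mk2_act, hd, hd, inN_act, map_add, map_smul, hm, map_add, map_add, hma,
      Submodule.coe_smul]
    have h1 : X.act a (v : X.carrier) = D.p2 a • (v : X.carrier) +
        X.act (D.io (D.pE a)) (v : X.carrier) := by
      have h2 : X.act D.e2 (v : X.carrier) = v := v.2
      calc X.act a (v : X.carrier) = X.act a (X.act D.e2 (v : X.carrier)) := by rw [h2]
        _ = _ := by rw [← hX.mul, D.mul_e2, hX.add, hX.smul, h2]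
    rw [h1]
    abel
  · intro w
    have h : ∀ w : TP E (V2 D X), k (i w) = w := fun w => by rw [hi, hk]
    exact h w
  · intro x
    rw [ht, hd, htN', ht2, map_zero, add_zero, sub_add_cancel]
  · have H : ∀ n w (v : V2 D X), i (k (mkp _ _ n (mk2 D _ w v))) +
        t (d (mkp _ _ n (mk2 D _ w v))) = mkp _ _ n (mk2 D _ w v) := by
      intro n w v
      rw [hk, hd]
      have hv : X.act D.e2 (inN D hX n + m w + (v : X.carrier)) = v := by
        rw [map_add, map_add, inN_e2, hm2, zero_add, zero_add]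
        exact v.2
      rw [hi, ht, mkp_add, mk2_add, add_zero, zero_add]
      congr 1
      · refine inN_inj D hX ?_
        rw [map_add, map_neg, hmN, htN', hv]
        abel
      · congr 1
        refine Subtype.ext ?_
        rw [ht2]
        exact hv
    intro z
    obtain ⟨n, y, rfl⟩ := exists_mkp _ _ z
    obtain ⟨w, v, rfl⟩ := exists_mk2 _ _ y
    exact H n w v

lemma zmod_left : LeftMod A (zmod A) where
  add _ _ _ := zmod_eq _ _
  smul _ _ _ := zmod_eq _ _
  mul _ _ _ := zmod_eq _ _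
  bound := ⟨0, fun a x => by
    rw [zmod_eq ((zmod A).act a x) 0, norm_zero, zero_mul, zero_mul]⟩

include D hX in
/-- Every left module has a projective resolution of length one. -/
theorem left_resol : Nonempty (Resol (LeftMod A) 1 X) := by
  obtain ⟨S⟩ := exists_ses D hX
  refine ⟨resol_one zmod_left (vone_left D _) ?_ (vone_proj D _) (proj_dsum (NM_proj D hX)
    (vtwo_proj D _)) S⟩
  obtain ⟨C, hC⟩ := (NM_left D hX).bound
  obtain ⟨C', hC'⟩ := (vtwo_left D (V2 D X)).bound
  refine ⟨fun a b z => ?_, fun c a z => ?_, fun a b z => ?_, max |C| |C'|, fun a z => ?_⟩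
  · obtain ⟨n, y, rfl⟩ := exists_mkp _ _ z
    rw [mkp_act, mkp_act, mkp_act, mkp_add, (NM_left D hX).add, (vtwo_left D _).add]
  · obtain ⟨n, y, rfl⟩ := exists_mkp _ _ z
    rw [mkp_act, mkp_act, (NM_left D hX).smul, (vtwo_left D _).smul]
    rfl
  · obtain ⟨n, y, rfl⟩ := exists_mkp _ _ z
    rw [mkp_act, mkp_act, mkp_act, (NM_left D hX).mul, (vtwo_left D _).mul]
  · obtain ⟨n, y, rfl⟩ := exists_mkp _ _ z
    rw [mkp_act]
    have hn : ‖n‖ ≤ ‖mkp (NM D hX) (vtwo D (V2 D X)) n y‖ :=
      norm_fst_le (E := (NM D hX).carrier) (n, y)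
    have hy : ‖y‖ ≤ ‖mkp (NM D hX) (vtwo D (V2 D X)) n y‖ :=
      norm_snd_le (E := (NM D hX).carrier) (n, y)
    have h1 : ‖(NM D hX).act a n‖ ≤ max |C| |C'| * ‖a‖ *
        ‖mkp (NM D hX) (vtwo D (V2 D X)) n y‖ := by
      refine (hC a n).trans ?_
      have h3 := (le_abs_self C).trans (le_max_left |C| |C'|)
      gcongr
    have h2 : ‖(vtwo D (V2 D X)).act a y‖ ≤ max |C| |C'| * ‖a‖ *
        ‖mkp (NM D hX) (vtwo D (V2 D X)) n y‖ := by
      refine (hC' a y).trans ?_
      have h3 := (le_abs_self C').trans (le_max_right |C| |C'|)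
      gcongr
    exact max_le h1 h2

end

end Pool.Agent.Helper5.Tri
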