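import Mathlib
import Pool.Agent.Helper5.Tri.Left2

/-!
Bimodules over the triangular algebra.
-/

namespace Pool.Agent.Helper5.Tri

open Pool.Agent.Helper5 Pool.Agent.Helper5.Dg

noncomputable section

variable {A : Type} [NormedRing A] [NormedAlgebra ℂ A] {E : Type} [NormedAddCommGroup E]
  [NormedSpace ℂ E] [CompleteSpace E] (D : TD A E)

/-! ### The corner bimodule -/

/-- The corner bimodule. -/
def b3 : OpMod (A ⊕ A) where
  carrier := E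
  act := Sum.elim (fun a => D.p1 a • ContinuousLinearMap.id ℂ E)
    (fun a => D.p2 a • ContinuousLinearMap.id ℂ E)

/-- Elements of the corner bimodule. -/
def m3 (y : E) : (b3 D).carrier := y

lemma m3_inl (a : A) (y : E) : (b3 D).act (Sum.inl a) (m3 D y) = m3 D (D.p1 a • y) := rfl

lemma m3_inr (a : A) (y : E) : (b3 D).act (Sum.inr a) (m3 D y) = m3 D (D.p2 a • y) := rfl

lemma m3_add (y y' : E) : m3 D y + m3 D y' = m3 D (y + y') := rfl

lemma m3_smul (c : ℂ) (y : E) : c • m3 D y = m3 D (c • y) := rfl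

lemma exists_m3 (z : (b3 D).carrier) : ∃ y, z = m3 D y := ⟨z, rfl⟩

lemma b3_bi : BiMod A (b3 D) where
  add_l a b x := by
    obtain ⟨y, hy⟩ := exists_m3 D x
    rw [hy]
    rw [m3_inl, m3_inl, m3_inl, m3_add, map_add, add_smul]
  smul_l c a x := by
    obtain ⟨y, hy⟩ := exists_m3 D x
    rw [hy]
    rw [m3_inl, m3_inl, m3_smul, map_smul, smul_eq_mul, mul_smul]
  mul_l a b x := by
    obtain ⟨y, hy⟩ := exists_m3 D x
    rw [hy]
    rw [m3_inl, m3_inl, m3_inl, D.p1_mul, mul_smul]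
  add_r a b x := by
    obtain ⟨y, hy⟩ := exists_m3 D x
    rw [hy]
    rw [m3_inr, m3_inr, m3_inr, m3_add, map_add, add_smul]
  smul_r c a x := by
    obtain ⟨y, hy⟩ := exists_m3 D x
    rw [hy]
    rw [m3_inr, m3_inr, m3_smul, map_smul, smul_eq_mul, mul_smul]
  mul_r a b x := by
    obtain ⟨y, hy⟩ := exists_m3 D x
    rw [hy]
    rw [m3_inr, m3_inr, m3_inr, D.p2_mul, mul_comm, mul_smul]
  comm a b x := by
    obtain ⟨y, hy⟩ := exists_m3 D x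
    rw [hy]
    rw [m3_inl, m3_inr, m3_inl, m3_inr, smul_comm]
  bound := by
    refine ⟨‖D.p1‖ + ‖D.p2‖, fun a x => ?_⟩
    obtain ⟨y, hy⟩ := exists_m3 D x
    rw [hy]
    have h1 := D.p1.le_opNorm a
    have h2 := D.p2.le_opNorm a
    constructor
    · show ‖D.p1 a • y‖ ≤ (‖D.p1‖ + ‖D.p2‖) * ‖a‖ * ‖y‖
      rw [norm_smul]
      have h3 : ‖D.p1‖ * ‖a‖ ≤ (‖D.p1‖ + ‖D.p2‖) * ‖a‖ := by
        have := norm_nonneg D.p2
        gcongr
        linarith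
      exact mul_le_mul_of_nonneg_right (h1.trans h3) (norm_nonneg _)
    · show ‖D.p2 a • y‖ ≤ (‖D.p1‖ + ‖D.p2‖) * ‖a‖ * ‖y‖
      rw [norm_smul]
      have h3 : ‖D.p2‖ * ‖a‖ ≤ (‖D.p1‖ + ‖D.p2‖) * ‖a‖ := by
        have := norm_nonneg D.p1
        gcongr
        linarith
      exact mul_le_mul_of_nonneg_right (h2.trans h3) (norm_nonneg _)

lemma b3_proj : Proj (BiMod A) (b3 D) := by
  intro M F hM hF q hq s hs f hf
  obtain ⟨g, hg⟩ : ∃ g : (b3 D).carrier →L[ℂ] M.carrier, ∀ y, g y =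
      M.act (Sum.inr D.e2) (M.act (Sum.inl D.e1) (s (f y))) :=
    ⟨(M.act (Sum.inr D.e2)).comp ((M.act (Sum.inl D.e1)).comp (s.comp f)), fun y => rfl⟩
  refine ⟨g, ?_, fun x => ?_⟩
  · rintro (a | a) x
    · obtain ⟨y, hy⟩ := exists_m3 D x
      rw [hy]
      rw [m3_inl, ← m3_smul, map_smul, hg, hM.comm, ← hM.mul_l, D.mul_e1, hM.smul_l, map_smul]
    · obtain ⟨y, hy⟩ := exists_m3 D x
      rw [hy]
      rw [m3_inr, ← m3_smul, map_smul, hg, ← hM.mul_r, D.e2_mul, hM.smul_r]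
  · obtain ⟨y, hy⟩ := exists_m3 D x
    rw [hy]
    rw [hg, hq, hq, hs, ← hf, ← hf, m3_inl, m3_inr, D.p1_e1, D.p2_e2, one_smul, one_smul]

/-! ### The first free bimodule -/

/-- The first free bimodule. -/
def b1 : OpMod (A ⊕ A) where
  carrier := ℂ × E
  act := Sum.elim (fun a => D.p1 a • ContinuousLinearMap.id ℂ (ℂ × E))
    (fun a => (D.p1 a • ContinuousLinearMap.fst ℂ ℂ E).prod
      ((ContinuousLinearMap.fst ℂ ℂ E).smulRight (D.pE a) +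
        D.p2 a • ContinuousLinearMap.snd ℂ ℂ E))

/-- Elements. -/
def m1 (l : ℂ) (y : E) : (b1 D).carrier := (l, y)

lemma m1_inl (a : A) (l : ℂ) (y : E) : (b1 D).act (Sum.inl a) (m1 D l y) =
    m1 D (D.p1 a * l) (D.p1 a • y) := rfl

lemma m1_inr (a : A) (l : ℂ) (y : E) : (b1 D).act (Sum.inr a) (m1 D l y) =
    m1 D (D.p1 a * l) (l • D.pE a + D.p2 a • y) := rfl

lemma m1_add (l l' : ℂ) (y y' : E) : m1 D l y + m1 D l' y' = m1 D (l + l') (y + y') := rfl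

lemma m1_smul (c l : ℂ) (y : E) : c • m1 D l y = m1 D (c * l) (c • y) := rfl

lemma exists_m1 (z : (b1 D).carrier) : ∃ l y, z = m1 D l y := ⟨z.1, z.2, rfl⟩

lemma b1_bi : BiMod A (b1 D) where
  add_l a b x := by
    obtain ⟨l, y, rfl⟩ := exists_m1 D x
    rw [m1_inl, m1_inl, m1_inl, m1_add, map_add, add_smul, add_mul]
  smul_l c a x := by
    obtain ⟨l, y, rfl⟩ := exists_m1 D x
    rw [m1_inl, m1_inl, m1_smul, map_smul, smul_eq_mul, mul_smul, mul_assoc]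
  mul_l a b x := by
    obtain ⟨l, y, rfl⟩ := exists_m1 D x
    rw [m1_inl, m1_inl, m1_inl, D.p1_mul, mul_smul, mul_assoc]
  add_r a b x := by
    obtain ⟨l, y, rfl⟩ := exists_m1 D x
    rw [m1_inr, m1_inr, m1_inr, m1_add, map_add, map_add, map_add, add_smul, add_mul, smul_add]
    congr 1
    abel
  smul_r c a x := by
    obtain ⟨l, y, rfl⟩ := exists_m1 D x
    rw [m1_inr, m1_inr, m1_smul, map_smul, map_smul, map_smul, smul_eq_mul, smul_eq_mul,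
      mul_smul, mul_assoc, smul_add, smul_comm c l]
  mul_r a b x := by
    obtain ⟨l, y, rfl⟩ := exists_m1 D x
    rw [m1_inr, m1_inr, m1_inr, D.p1_mul, D.p2_mul, D.pE_mul, smul_add, smul_add,
      smul_comm l (D.p2 b), smul_smul l (D.p1 a), smul_smul (D.p2 b) (D.p2 a),
      mul_comm (D.p1 a) (D.p1 b), mul_assoc, mul_comm (D.p1 a) l, mul_comm (D.p2 a) (D.p2 b),
      add_assoc]
  comm a b x := by
    obtain ⟨l, y, rfl⟩ := exists_m1 D x
    rw [m1_inl, m1_inr, m1_inl, m1_inr, smul_add, smul_smul, smul_comm (D.p1 a) (D.p2 b),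
      mul_left_comm]
  bound := by
    refine ⟨‖D.p1‖ + ‖D.p2‖ + ‖D.pE‖, fun a x => ?_⟩
    obtain ⟨l, y, rfl⟩ := exists_m1 D x
    have h1 := D.p1.le_opNorm a
    have h2 := D.p2.le_opNorm a
    have h3 := D.pE.le_opNorm a
    have hl : ‖l‖ ≤ ‖m1 D l y‖ := norm_fst_le (E := ℂ) (l, y)
    have hy : ‖y‖ ≤ ‖m1 D l y‖ := norm_snd_le (E := ℂ) (l, y)
    have k0 : ‖D.p1 a * l‖ ≤ (‖D.p1‖ + ‖D.p2‖ + ‖D.pE‖) * ‖a‖ * ‖m1 D l y‖ := by
      rw [norm_mul]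
      calc _ ≤ (‖D.p1‖ * ‖a‖) * ‖m1 D l y‖ := by gcongr
        _ ≤ (‖D.p1‖ * ‖a‖) * ‖m1 D l y‖ + (‖D.p2‖ * ‖a‖) * ‖m1 D l y‖ +
              (‖D.pE‖ * ‖a‖) * ‖m1 D l y‖ := by
            rw [add_assoc]
            exact le_add_of_nonneg_right (by positivity)
        _ = _ := by ring
    have k1 : ‖D.p1 a • y‖ ≤ (‖D.p1‖ + ‖D.p2‖ + ‖D.pE‖) * ‖a‖ * ‖m1 D l y‖ := by
      rw [norm_smul]
      calc _ ≤ (‖D.p1‖ * ‖a‖) * ‖m1 D l y‖ := by gcongr
        _ ≤ (‖D.p1‖ * ‖a‖) * ‖m1 D l y‖ + (‖D.p2‖ * ‖a‖) * ‖m1 D l y‖ +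
              (‖D.pE‖ * ‖a‖) * ‖m1 D l y‖ := by
            rw [add_assoc]
            exact le_add_of_nonneg_right (by positivity)
        _ = _ := by ring
    have k2 : ‖l • D.pE a + D.p2 a • y‖ ≤ (‖D.p1‖ + ‖D.p2‖ + ‖D.pE‖) * ‖a‖ * ‖m1 D l y‖ := by
      calc _ ≤ ‖l‖ * ‖D.pE a‖ + ‖D.p2 a‖ * ‖y‖ :=
            (norm_add_le _ _).trans (add_le_add (norm_smul _ _).le (norm_smul _ _).le)
        _ ≤ ‖m1 D l y‖ * (‖D.pE‖ * ‖a‖) + (‖D.p2‖ * ‖a‖) * ‖m1 D l y‖ := by gcongr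
        _ ≤ ‖m1 D l y‖ * (‖D.pE‖ * ‖a‖) + (‖D.p2‖ * ‖a‖) * ‖m1 D l y‖ +
              (‖D.p1‖ * ‖a‖) * ‖m1 D l y‖ := le_add_of_nonneg_right (by positivity)
        _ = _ := by ring
    exact ⟨max_le k0 k1, max_le k0 k2⟩

lemma b1_proj : Proj (BiMod A) (b1 D) := by
  intro M F hM hF q hq s hs f hf
  obtain ⟨C, hC⟩ := hM.bound
  obtain ⟨u1, hu1⟩ : ∃ u1, u1 = M.act (Sum.inl D.e1) (s (f (m1 D 1 0))) := ⟨_, rfl⟩
  obtain ⟨u, hu⟩ : ∃ u, u = M.act (Sum.inr D.e1) u1 := ⟨_, rfl⟩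
  have hl1 : ∀ a, M.act (Sum.inl a) u1 = D.p1 a • u1 := by
    intro a
    rw [hu1, ← hM.mul_l, D.mul_e1, hM.smul_l]
  have hl : ∀ a, M.act (Sum.inl a) u = D.p1 a • u := by
    intro a
    rw [hu, hM.comm, hl1, map_smul]
  have hio : ∀ x, M.act (Sum.inr (D.io x)) u = M.act (Sum.inr (D.io x)) u1 := by
    intro x
    rw [hu, ← hM.mul_r, D.mul_io, D.p1_e1, one_smul]
  have hr : ∀ a, M.act (Sum.inr a) u = D.p1 a • u + M.act (Sum.inr (D.io (D.pE a))) u := by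
    intro a
    rw [hio]
    rw [hu, ← hM.mul_r, D.e1_mul, hM.add_r, hM.smul_r]
  obtain ⟨ρ, hρ⟩ : ∃ ρ : E →L[ℂ] M.carrier, ∀ y, ρ y = M.act (Sum.inr (D.io y)) u :=
    ⟨LinearMap.mkContinuous
      ({ toFun := fun y => M.act (Sum.inr (D.io y)) u
         map_add' := fun y y' => by rw [map_add, hM.add_r]
         map_smul' := fun c y => by rw [map_smul, hM.smul_r, RingHom.id_apply] } :
        E →ₗ[ℂ] M.carrier) (|C| * ‖D.io‖ * ‖u‖) (fun y => by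
        calc _ ≤ C * ‖D.io y‖ * ‖u‖ := (hC _ _).2
          _ ≤ |C| * (‖D.io‖ * ‖y‖) * ‖u‖ := by
              have h1 := le_abs_self C
              have h2 := D.io.le_opNorm y
              gcongr
          _ = _ := by ring), fun y => rfl⟩
  obtain ⟨g, hg⟩ : ∃ g : (b1 D).carrier →L[ℂ] M.carrier, ∀ l y, g (m1 D l y) = l • u + ρ y :=
    ⟨show ℂ × E →L[ℂ] M.carrier from (ContinuousLinearMap.fst ℂ ℂ E).smulRight u +
      ρ.comp (ContinuousLinearMap.snd ℂ ℂ E), fun l y => rfl⟩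
  have hqu : q u = f (m1 D 1 0) := by
    rw [hu, hu1, hq, hq, hs, ← hf, ← hf, m1_inl, m1_inr, D.p1_e1, D.pE_e1, one_mul, one_mul,
      one_smul, smul_zero, add_zero]
  refine ⟨g, ?_, fun x => ?_⟩
  · rintro (a | a) x
    · obtain ⟨l, y, rfl⟩ := exists_m1 D x
      rw [m1_inl, ← m1_smul, map_smul, hg, map_add, map_smul, hl, hρ, hM.comm, hl, map_smul,
        smul_add, smul_comm l]
    · obtain ⟨l, y, rfl⟩ := exists_m1 D x
      rw [m1_inr, hg, hg, map_add, map_add, map_smul, map_smul, map_smul, hr, hρ, hρ,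
        ← hM.mul_r, D.io_mul, hM.smul_r, smul_add, mul_comm, mul_smul, add_assoc]
  · obtain ⟨l, y, rfl⟩ := exists_m1 D x
    rw [hg, map_add, map_smul, hqu, hρ, hq, hqu, ← hf, m1_inr, D.p1_io, D.pE_io, D.p2_io,
      zero_mul, smul_zero, add_zero, one_smul, ← map_smul, ← map_add, m1_smul, m1_add,
      smul_zero, mul_one, add_zero, zero_add]

end

end Pool.Agent.Helper5.Tri
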