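import Mathlib
import Pool.Agent.Helper5.Tri.Bi

/-!
The second free bimodule over the triangular algebra.
-/

namespace Pool.Agent.Helper5.Tri

open Pool.Agent.Helper5 Pool.Agent.Helper5.Dg

noncomputable section

variable {A : Type} [NormedRing A] [NormedAlgebra ℂ A] {E : Type} [NormedAddCommGroup E]
  [NormedSpace ℂ E] [CompleteSpace E] (D : TD A E)

/-- The second free bimodule. -/
def b2 : OpMod (A ⊕ A) where
  carrier := E × ℂ
  act := Sum.elim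
    (fun a => (D.p1 a • ContinuousLinearMap.fst ℂ E ℂ +
      (ContinuousLinearMap.snd ℂ E ℂ).smulRight (D.pE a)).prod
        (D.p2 a • ContinuousLinearMap.snd ℂ E ℂ))
    (fun a => D.p2 a • ContinuousLinearMap.id ℂ (E × ℂ))

/-- Elements. -/
def m2 (y : E) (l : ℂ) : (b2 D).carrier := (y, l)

lemma m2_inl (a : A) (l : ℂ) (y : E) : (b2 D).act (Sum.inl a) (m2 D y l) =
    m2 D (D.p1 a • y + l • D.pE a) (D.p2 a * l) := rfl

lemma m2_inr (a : A) (l : ℂ) (y : E) : (b2 D).act (Sum.inr a) (m2 D y l) =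
    m2 D (D.p2 a • y) (D.p2 a * l) := rfl

lemma m2_add (l l' : ℂ) (y y' : E) : m2 D y l + m2 D y' l' = m2 D (y + y') (l + l') := rfl

lemma m2_smul (c l : ℂ) (y : E) : c • m2 D y l = m2 D (c • y) (c * l) := rfl

lemma exists_m2 (z : (b2 D).carrier) : ∃ y l, z = m2 D y l := ⟨z.1, z.2, rfl⟩

lemma b2_bi : BiMod A (b2 D) where
  add_l a b x := by
    obtain ⟨y, l, rfl⟩ := exists_m2 D x
    rw [m2_inl, m2_inl, m2_inl, m2_add, map_add, map_add, map_add, add_smul, add_mul, smul_add]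
    congr 1
    abel
  smul_l c a x := by
    obtain ⟨y, l, rfl⟩ := exists_m2 D x
    rw [m2_inl, m2_inl, m2_smul, map_smul, map_smul, map_smul, smul_eq_mul, smul_eq_mul,
      mul_smul, mul_assoc, smul_add, smul_comm c l]
  mul_l a b x := by
    obtain ⟨y, l, rfl⟩ := exists_m2 D x
    rw [m2_inl, m2_inl, m2_inl, D.p1_mul, D.p2_mul, D.pE_mul, smul_add, smul_add,
      smul_comm l (D.p1 a), smul_smul l (D.p2 b), mul_smul, mul_assoc, mul_comm l (D.p2 b),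
      add_assoc]
  add_r a b x := by
    obtain ⟨y, l, rfl⟩ := exists_m2 D x
    rw [m2_inr, m2_inr, m2_inr, m2_add, map_add, add_smul, add_mul]
  smul_r c a x := by
    obtain ⟨y, l, rfl⟩ := exists_m2 D x
    rw [m2_inr, m2_inr, m2_smul, map_smul, smul_eq_mul, mul_smul, mul_assoc]
  mul_r a b x := by
    obtain ⟨y, l, rfl⟩ := exists_m2 D x
    rw [m2_inr, m2_inr, m2_inr, D.p2_mul, mul_comm (D.p2 a) (D.p2 b), mul_smul, mul_assoc]
  comm a b x := by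
    obtain ⟨y, l, rfl⟩ := exists_m2 D x
    rw [m2_inl, m2_inr, m2_inl, m2_inr, smul_add, mul_smul, smul_comm (D.p1 a) (D.p2 b),
      mul_left_comm]
  bound := by
    refine ⟨‖D.p1‖ + ‖D.p2‖ + ‖D.pE‖, fun a x => ?_⟩
    obtain ⟨y, l, rfl⟩ := exists_m2 D x
    have h1 := D.p1.le_opNorm a
    have h2 := D.p2.le_opNorm a
    have h3 := D.pE.le_opNorm a
    have hy : ‖y‖ ≤ ‖m2 D y l‖ := norm_fst_le (E := E) (y, l)
    have hl : ‖l‖ ≤ ‖m2 D y l‖ := norm_snd_le (E := E) (y, l)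
    have k0 : ‖D.p2 a * l‖ ≤ (‖D.p1‖ + ‖D.p2‖ + ‖D.pE‖) * ‖a‖ * ‖m2 D y l‖ := by
      rw [norm_mul]
      calc _ ≤ (‖D.p2‖ * ‖a‖) * ‖m2 D y l‖ := by gcongr
        _ ≤ (‖D.p2‖ * ‖a‖) * ‖m2 D y l‖ + ((‖D.p1‖ * ‖a‖) * ‖m2 D y l‖ +
              (‖D.pE‖ * ‖a‖) * ‖m2 D y l‖) := le_add_of_nonneg_right (by positivity)
        _ = _ := by ring
    have k1 : ‖D.p2 a • y‖ ≤ (‖D.p1‖ + ‖D.p2‖ + ‖D.pE‖) * ‖a‖ * ‖m2 D y l‖ := by
      rw [norm_smul]
      calc _ ≤ (‖D.p2‖ * ‖a‖) * ‖m2 D y l‖ := by gcongr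
        _ ≤ (‖D.p2‖ * ‖a‖) * ‖m2 D y l‖ + ((‖D.p1‖ * ‖a‖) * ‖m2 D y l‖ +
              (‖D.pE‖ * ‖a‖) * ‖m2 D y l‖) := le_add_of_nonneg_right (by positivity)
        _ = _ := by ring
    have k2 : ‖D.p1 a • y + l • D.pE a‖ ≤ (‖D.p1‖ + ‖D.p2‖ + ‖D.pE‖) * ‖a‖ * ‖m2 D y l‖ := by
      calc _ ≤ ‖D.p1 a‖ * ‖y‖ + ‖l‖ * ‖D.pE a‖ :=
            (norm_add_le _ _).trans (add_le_add (norm_smul _ _).le (norm_smul _ _).le)
        _ ≤ (‖D.p1‖ * ‖a‖) * ‖m2 D y l‖ + ‖m2 D y l‖ * (‖D.pE‖ * ‖a‖) := by gcongr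
        _ ≤ (‖D.p1‖ * ‖a‖) * ‖m2 D y l‖ + ‖m2 D y l‖ * (‖D.pE‖ * ‖a‖) +
              (‖D.p2‖ * ‖a‖) * ‖m2 D y l‖ := le_add_of_nonneg_right (by positivity)
        _ = _ := by ring
    exact ⟨max_le k2 k0, max_le k1 k0⟩

lemma b2_proj : Proj (BiMod A) (b2 D) := by
  intro M F hM hF q hq s hs f hf
  obtain ⟨C, hC⟩ := hM.bound
  obtain ⟨u1, hu1⟩ : ∃ u1, u1 = M.act (Sum.inr D.e2) (s (f (m2 D 0 1))) := ⟨_, rfl⟩
  obtain ⟨u, hu⟩ : ∃ u, u = M.act (Sum.inl D.e2) u1 := ⟨_, rfl⟩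
  have hr1 : ∀ a, M.act (Sum.inr a) u1 = D.p2 a • u1 := by
    intro a
    rw [hu1, ← hM.mul_r, D.e2_mul, hM.smul_r]
  have hr : ∀ a, M.act (Sum.inr a) u = D.p2 a • u := by
    intro a
    rw [hu, ← hM.comm, hr1, map_smul]
  have hio : ∀ x, M.act (Sum.inl (D.io x)) u = M.act (Sum.inl (D.io x)) u1 := by
    intro x
    rw [hu, ← hM.mul_l, D.io_mul, D.p2_e2, one_smul]
  have hl : ∀ a, M.act (Sum.inl a) u = D.p2 a • u + M.act (Sum.inl (D.io (D.pE a))) u := by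
    intro a
    rw [hio]
    rw [hu, ← hM.mul_l, D.mul_e2, hM.add_l, hM.smul_l]
  obtain ⟨ρ, hρ⟩ : ∃ ρ : E →L[ℂ] M.carrier, ∀ y, ρ y = M.act (Sum.inl (D.io y)) u :=
    ⟨LinearMap.mkContinuous
      ({ toFun := fun y => M.act (Sum.inl (D.io y)) u
         map_add' := fun y y' => by rw [map_add, hM.add_l]
         map_smul' := fun c y => by rw [map_smul, hM.smul_l, RingHom.id_apply] } :
        E →ₗ[ℂ] M.carrier) (|C| * ‖D.io‖ * ‖u‖) (fun y => by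
        calc _ ≤ C * ‖D.io y‖ * ‖u‖ := (hC _ _).1
          _ ≤ |C| * (‖D.io‖ * ‖y‖) * ‖u‖ := by
              have h1 := le_abs_self C
              have h2 := D.io.le_opNorm y
              gcongr
          _ = _ := by ring), fun y => rfl⟩
  obtain ⟨g, hg⟩ : ∃ g : (b2 D).carrier →L[ℂ] M.carrier, ∀ l y, g (m2 D y l) = l • u + ρ y :=
    ⟨show E × ℂ →L[ℂ] M.carrier from (ContinuousLinearMap.snd ℂ E ℂ).smulRight u +
      ρ.comp (ContinuousLinearMap.fst ℂ E ℂ), fun l y => rfl⟩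
  have hqu : q u = f (m2 D 0 1) := by
    rw [hu, hu1, hq, hq, hs, ← hf, ← hf, m2_inr, m2_inl, D.p2_e2, D.pE_e2, one_mul, one_mul,
      smul_zero, smul_zero, add_zero]
  refine ⟨g, ?_, fun x => ?_⟩
  · rintro (a | a) x
    · obtain ⟨y, l, rfl⟩ := exists_m2 D x
      rw [m2_inl, hg, hg, map_add, map_add, map_smul, map_smul, map_smul, hl, hρ, hρ,
        ← hM.mul_l, D.mul_io, hM.smul_l, smul_add, mul_comm, mul_smul]
      abel
    · obtain ⟨y, l, rfl⟩ := exists_m2 D x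
      rw [m2_inr, ← m2_smul, map_smul, hg, map_add, map_smul, hr, hρ, ← hM.comm, hr, map_smul,
        smul_add, smul_comm l]
  · obtain ⟨y, l, rfl⟩ := exists_m2 D x
    rw [hg, map_add, map_smul, hqu, hρ, hq, hqu, ← hf, m2_inl, D.p2_io, D.pE_io, D.p1_io,
      zero_mul, smul_zero, one_smul, zero_add, ← map_smul, ← map_add, m2_smul, m2_add,
      smul_zero, mul_one, add_zero, zero_add]

/-! ### The resolution of the regular bimodule -/

lemma regBi_bim [CompleteSpace A] : BiMod A (regBi A) where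
  add_l a b x := add_mul a b (show A from x)
  smul_l c a x := smul_mul_assoc c a (show A from x)
  mul_l a b x := mul_assoc a b (show A from x)
  add_r a b x := mul_add (show A from x) a b
  smul_r c a x := mul_smul_comm c (show A from x) a
  mul_r a b x := (mul_assoc (show A from x) a b).symm
  comm a b x := (mul_assoc a (show A from x) b).symm
  bound := ⟨1, fun a x => by
    have h1 : ∀ x : A, ‖a * x‖ ≤ 1 * ‖a‖ * ‖x‖ := fun x => by
      rw [one_mul]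
      exact norm_mul_le _ _
    have h2 : ∀ x : A, ‖x * a‖ ≤ 1 * ‖a‖ * ‖x‖ := fun x => by
      rw [one_mul, mul_comm]
      exact norm_mul_le _ _
    exact ⟨h1 x, h2 x⟩⟩

lemma zmod_bi : BiMod A (zmod (A ⊕ A)) where
  add_l _ _ _ := zmod_eq _ _
  smul_l _ _ _ := zmod_eq _ _
  mul_l _ _ _ := zmod_eq _ _
  add_r _ _ _ := zmod_eq _ _
  smul_r _ _ _ := zmod_eq _ _
  mul_r _ _ _ := zmod_eq _ _
  comm _ _ _ := zmod_eq _ _
  bound := ⟨0, fun a x => by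
    rw [zmod_eq ((zmod (A ⊕ A)).act (Sum.inl a) x) 0,
      zmod_eq ((zmod (A ⊕ A)).act (Sum.inr a) x) 0, norm_zero, zero_mul, zero_mul]
    exact ⟨le_rfl, le_rfl⟩⟩

lemma dsum_bi {M N : OpMod (A ⊕ A)} (hM : BiMod A M) (hN : BiMod A N) : BiMod A (dsum M N) where
  add_l a b z := by
    obtain ⟨n, y, rfl⟩ := exists_mkp _ _ z
    rw [mkp_act, mkp_act, mkp_act, mkp_add, hM.add_l, hN.add_l]
  smul_l c a z := by
    obtain ⟨n, y, rfl⟩ := exists_mkp _ _ z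
    rw [mkp_act, mkp_act, hM.smul_l, hN.smul_l]
    rfl
  mul_l a b z := by
    obtain ⟨n, y, rfl⟩ := exists_mkp _ _ z
    rw [mkp_act, mkp_act, mkp_act, hM.mul_l, hN.mul_l]
  add_r a b z := by
    obtain ⟨n, y, rfl⟩ := exists_mkp _ _ z
    rw [mkp_act, mkp_act, mkp_act, mkp_add, hM.add_r, hN.add_r]
  smul_r c a z := by
    obtain ⟨n, y, rfl⟩ := exists_mkp _ _ z
    rw [mkp_act, mkp_act, hM.smul_r, hN.smul_r]
    rfl
  mul_r a b z := by
    obtain ⟨n, y, rfl⟩ := exists_mkp _ _ z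
    rw [mkp_act, mkp_act, mkp_act, hM.mul_r, hN.mul_r]
  comm a b z := by
    obtain ⟨n, y, rfl⟩ := exists_mkp _ _ z
    rw [mkp_act, mkp_act, mkp_act, mkp_act, hM.comm, hN.comm]
  bound := by
    obtain ⟨C, hC⟩ := hM.bound
    obtain ⟨C', hC'⟩ := hN.bound
    refine ⟨max |C| |C'|, fun a z => ?_⟩
    obtain ⟨n, y, rfl⟩ := exists_mkp _ _ z
    have hn : ‖n‖ ≤ ‖mkp M N n y‖ := norm_fst_le (E := M.carrier) (n, y)
    have hy : ‖y‖ ≤ ‖mkp M N n y‖ := norm_snd_le (E := M.carrier) (n, y)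
    have h3 := (le_abs_self C).trans (le_max_left |C| |C'|)
    have h4 := (le_abs_self C').trans (le_max_right |C| |C'|)
    have k1 : C * ‖a‖ * ‖n‖ ≤ max |C| |C'| * ‖a‖ * ‖mkp M N n y‖ := by gcongr
    have k2 : C' * ‖a‖ * ‖y‖ ≤ max |C| |C'| * ‖a‖ * ‖mkp M N n y‖ := by gcongr
    rw [mkp_act, mkp_act]
    exact ⟨max_le ((hC a n).1.trans k1) ((hC' a y).1.trans k2),
      max_le ((hC a n).2.trans k1) ((hC' a y).2.trans k2)⟩

end

end Pool.Agent.Helper5.Tri
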