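import Mathlib
import Pool.Agent.Helper5.Tri.BiTwo

/-!
The dimensions of the triangular algebra.
-/

namespace Pool.Agent.Helper5.Tri

open Pool.Agent.Helper5 Pool.Agent.Helper5.Dg

noncomputable section

variable {A : Type} [NormedRing A] [NormedAlgebra ℂ A] {E : Type} [NormedAddCommGroup E]
  [NormedSpace ℂ E] [CompleteSpace E] (D : TD A E)

section

variable [CompleteSpace A]

/-- Elements of the regular bimodule. -/
def mr (a : A) : (regBi A).carrier := a

lemma mr_inl (a b : A) : (regBi A).act (Sum.inl a) (mr b) = mr (a * b) := rfl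

lemma mr_inr (a b : A) : (regBi A).act (Sum.inr a) (mr b) = mr (b * a) := rfl

include D in
lemma bi_ses : Nonempty (Ses (BiMod A) (b3 D) (dsum (b1 D) (b2 D)) (regBi A)) := by
  obtain ⟨i, hi⟩ : ∃ i : E →L[ℂ] (dsum (b1 D) (b2 D)).carrier,
      ∀ y, i y = mkp _ _ (m1 D 0 (-y)) (m2 D y 0) :=
    ⟨show E →L[ℂ] (ℂ × E) × (E × ℂ) from
      ((0 : E →L[ℂ] ℂ).prod (-ContinuousLinearMap.id ℂ E)).prod
        ((ContinuousLinearMap.id ℂ E).prod (0 : E →L[ℂ] ℂ)), fun y => rfl⟩
  obtain ⟨k, hk⟩ : ∃ k : (dsum (b1 D) (b2 D)).carrier →L[ℂ] E,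
      ∀ l y y' l', k (mkp _ _ (m1 D l y) (m2 D y' l')) = y' :=
    ⟨show (ℂ × E) × (E × ℂ) →L[ℂ] E from
      (ContinuousLinearMap.fst ℂ E ℂ).comp (ContinuousLinearMap.snd ℂ (ℂ × E) (E × ℂ)),
      fun l y y' l' => rfl⟩
  obtain ⟨d, hd⟩ : ∃ d : (dsum (b1 D) (b2 D)).carrier →L[ℂ] A,
      ∀ l y y' l', d (mkp _ _ (m1 D l y) (m2 D y' l')) =
        (l • D.e1 + D.io y) + (D.io y' + l' • D.e2) :=
    ⟨show (ℂ × E) × (E × ℂ) →L[ℂ] A from
      ((ContinuousLinearMap.fst ℂ ℂ E).smulRight D.e1 +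
        D.io.comp (ContinuousLinearMap.snd ℂ ℂ E)).comp
          (ContinuousLinearMap.fst ℂ (ℂ × E) (E × ℂ)) +
      (D.io.comp (ContinuousLinearMap.fst ℂ E ℂ) +
        (ContinuousLinearMap.snd ℂ E ℂ).smulRight D.e2).comp
          (ContinuousLinearMap.snd ℂ (ℂ × E) (E × ℂ)),
      fun l y y' l' => rfl⟩
  obtain ⟨t, ht⟩ : ∃ t : A →L[ℂ] (dsum (b1 D) (b2 D)).carrier,
      ∀ a, t a = mkp _ _ (m1 D (D.p1 a) (D.pE a)) (m2 D 0 (D.p2 a)) :=
    ⟨show A →L[ℂ] (ℂ × E) × (E × ℂ) from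
      (D.p1.prod D.pE).prod ((0 : A →L[ℂ] E).prod D.p2), fun a => rfl⟩
  have H1 : ∀ (a : A) y, i (D.p1 a • y) = (dsum (b1 D) (b2 D)).act (Sum.inl a) (i y) := by
    intro a y
    rw [hi, hi, mkp_act, m1_inl, m2_inl, mul_zero, mul_zero, smul_neg, zero_smul, add_zero]
  have H2 : ∀ (a : A) y, i (D.p2 a • y) = (dsum (b1 D) (b2 D)).act (Sum.inr a) (i y) := by
    intro a y
    rw [hi, hi, mkp_act, m1_inr, m2_inr, mul_zero, mul_zero, smul_neg, zero_smul, zero_add]
  have H3 : ∀ (a : A) z, d ((dsum (b1 D) (b2 D)).act (Sum.inl a) z) = a * d z := by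
    intro a z
    obtain ⟨x, x', rfl⟩ := exists_mkp _ _ z
    obtain ⟨l, y, rfl⟩ := exists_m1 D x
    obtain ⟨y', l', rfl⟩ := exists_m2 D x'
    rw [mkp_act, m1_inl, m2_inl, hd, hd, mul_add, mul_add, mul_add, mul_smul_comm,
      mul_smul_comm, D.mul_e1, D.mul_e2, D.mul_io, D.mul_io, smul_add, smul_smul, smul_smul,
      map_smul, map_add, map_smul, map_smul, mul_comm l, mul_comm l', add_assoc (D.p1 a • D.io y')]
    congr 2
    abel
  have H4 : ∀ (a : A) z, d ((dsum (b1 D) (b2 D)).act (Sum.inr a) z) = d z * a := by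
    intro a z
    obtain ⟨x, x', rfl⟩ := exists_mkp _ _ z
    obtain ⟨l, y, rfl⟩ := exists_m1 D x
    obtain ⟨y', l', rfl⟩ := exists_m2 D x'
    rw [mkp_act, m1_inr, m2_inr, hd, hd, add_mul, add_mul, add_mul, smul_mul_assoc,
      smul_mul_assoc, D.e1_mul, D.e2_mul, D.io_mul, D.io_mul, smul_add, smul_smul, smul_smul,
      map_smul, map_add, map_smul, map_smul, mul_comm l, mul_comm l']
    abel
  have H5 : ∀ y, k (i y) = y := fun y => by rw [hi, hk]
  have H6 : ∀ a, d (t a) = a := fun a => by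
    rw [ht, hd, map_zero, zero_add]
    conv_rhs => rw [D.dec a]
    abel
  have H7 : ∀ z, i (k z) + t (d z) = z := by
    intro z
    obtain ⟨x, x', rfl⟩ := exists_mkp _ _ z
    obtain ⟨l, y, rfl⟩ := exists_m1 D x
    obtain ⟨y', l', rfl⟩ := exists_m2 D x'
    rw [hk, hd, hi, ht, mkp_add, m1_add, m2_add]
    have e1 : D.p1 (l • D.e1 + D.io y + (D.io y' + l' • D.e2)) = l := by
      rw [map_add, map_add, map_add, map_smul, map_smul, D.p1_e1, D.p1_e2, D.p1_io, D.p1_io]
      simp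
    have e2 : D.p2 (l • D.e1 + D.io y + (D.io y' + l' • D.e2)) = l' := by
      rw [map_add, map_add, map_add, map_smul, map_smul, D.p2_e1, D.p2_e2, D.p2_io, D.p2_io]
      simp
    have e3 : D.pE (l • D.e1 + D.io y + (D.io y' + l' • D.e2)) = y + y' := by
      rw [map_add, map_add, map_add, map_smul, map_smul, D.pE_e1, D.pE_e2, D.pE_io, D.pE_io]
      simp
    rw [e1, e2, e3, zero_add, zero_add, add_zero, neg_add_eq_sub, add_sub_cancel_right]
  exact ⟨{ i := i, d := d, k := k, t := t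
           mor_i := by
            rintro (a | a) x
            · exact H1 a x
            · exact H2 a x
           mor_d := by
            rintro (a | a) x
            · exact H3 a x
            · exact H4 a x
           k_i := H5, d_t := H6, split := H7 }⟩

include D in
/-- The regular bimodule has a projective resolution of length one. -/
theorem bi_resol : Nonempty (Resol (BiMod A) 1 (regBi A)) := by
  obtain ⟨S⟩ := bi_ses D
  exact ⟨resol_one zmod_bi (b3_bi D) (dsum_bi (b1_bi D) (b2_bi D)) (b3_proj D)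
    (proj_dsum (b1_proj D) (b2_proj D)) S⟩

end

end

end Pool.Agent.Helper5.Tri
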