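import Mathlib
import Pool.Agent.Helper5.Tri.BiRes

/-!
The lower bounds and the exact values.
-/

namespace Pool.Agent.Helper5.Tri

open Pool.Agent.Helper5 Pool.Agent.Helper5.Dg

noncomputable section

variable {A : Type} [NormedRing A] [NormedAlgebra ℂ A] {E : Type} [NormedAddCommGroup E]
  [NormedSpace ℂ E] [CompleteSpace E] (D : TD A E)

/-- The simple module at the second vertex. -/
def S2 : OpMod A where
  carrier := ℂ
  act a := D.p2 a • ContinuousLinearMap.id ℂ ℂ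

lemma S2_act (a : A) (x : ℂ) : (S2 D).act a x = D.p2 a * x := rfl

lemma S2_left : LeftMod A (S2 D) where
  add a b x := by
    have h : ∀ x : ℂ, D.p2 (a + b) * x = D.p2 a * x + D.p2 b * x := fun x => by
      rw [map_add, add_mul]
    exact h x
  smul c a x := by
    have h : ∀ x : ℂ, D.p2 (c • a) * x = c * (D.p2 a * x) := fun x => by
      rw [map_smul, smul_eq_mul, mul_assoc]
    exact h x
  mul a b x := by
    have h : ∀ x : ℂ, D.p2 (a * b) * x = D.p2 a * (D.p2 b * x) := fun x => by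
      rw [D.p2_mul, mul_assoc]
    exact h x
  bound := ⟨‖D.p2‖, fun a x => by
    have h : ∀ x : ℂ, ‖D.p2 a * x‖ ≤ ‖D.p2‖ * ‖a‖ * ‖x‖ := fun x => by
      rw [norm_mul]
      exact mul_le_mul_of_nonneg_right (D.p2.le_opNorm a) (norm_nonneg _)
    exact h x⟩

/-- The left module of the second free bimodule. -/
def L2 : OpMod A where
  carrier := (b2 D).carrier
  act a := (b2 D).act (Sum.inl a)

lemma L2_left : LeftMod A (L2 D) where
  add := (b2_bi D).add_l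
  smul := (b2_bi D).smul_l
  mul := (b2_bi D).mul_l
  bound := by
    obtain ⟨C, hC⟩ := (b2_bi D).bound
    exact ⟨C, fun a x => (hC a x).1⟩

lemma S2_not_proj {x : E} (hx : x ≠ 0) : ¬ Proj (LeftMod A) (S2 D) := by
  intro h
  obtain ⟨q, hq⟩ : ∃ q : (b2 D).carrier →L[ℂ] ℂ, ∀ y l, q (m2 D y l) = l :=
    ⟨ContinuousLinearMap.snd ℂ E ℂ, fun y l => rfl⟩
  obtain ⟨s, hs⟩ : ∃ s : ℂ →L[ℂ] (b2 D).carrier, ∀ l, s l = m2 D 0 l :=
    ⟨ContinuousLinearMap.inr ℂ E ℂ, fun l => rfl⟩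
  have H1 : ∀ (a : A) z, q ((b2 D).act (Sum.inl a) z) = D.p2 a * q z := by
    intro a z
    obtain ⟨y, l, rfl⟩ := exists_m2 D z
    rw [m2_inl, hq, hq]
  have H2 : ∀ l, q (s l) = l := fun l => by rw [hs, hq]
  obtain ⟨g, hg, hgq⟩ := h (L2 D) (S2 D) (L2_left D) (S2_left D) q H1 s H2
    (ContinuousLinearMap.id ℂ ℂ) (fun a x => rfl)
  have hg' : ∀ (a : A) (x : ℂ), g (D.p2 a * x : ℂ) =
      (b2 D).act (Sum.inl a) (g x : (b2 D).carrier) := hg
  have hgq' : ∀ x : ℂ, q (g x : (b2 D).carrier) = x := hgq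
  obtain ⟨y, l, hyl⟩ := exists_m2 D (g (1 : ℂ))
  have h1 := hg' (D.io x) 1
  have h2 := hgq' 1
  rw [hyl, hq] at h2
  rw [D.p2_io, zero_mul, hyl, m2_inl, D.p1_io, D.pE_io, D.p2_io, h2, zero_smul, zero_add,
    one_smul, zero_mul] at h1
  have h3 : g (0 : ℂ) = m2 D 0 0 := map_zero g
  rw [h3] at h1
  have h4 : (0 : E) = x := congrArg Prod.fst (show ((0, 0) : E × ℂ) = (x, 0) from h1)
  exact hx h4.symm

section

variable [CompleteSpace A]

/-- The extension of the regular bimodule by a derivation. -/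
def ext : OpMod (A ⊕ A) where
  carrier := A × E
  act := Sum.elim
    (fun a => ((ContinuousLinearMap.mul ℂ A a).comp (ContinuousLinearMap.fst ℂ A E)).prod
      (D.p1 a • ContinuousLinearMap.snd ℂ A E))
    (fun a => (((ContinuousLinearMap.mul ℂ A).flip a).comp (ContinuousLinearMap.fst ℂ A E)).prod
      (D.p2 a • ContinuousLinearMap.snd ℂ A E +
        (D.p1.comp (ContinuousLinearMap.fst ℂ A E)).smulRight (D.pE a)))

/-- Elements. -/
def me (b : A) (y : E) : (ext D).carrier := (b, y)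

lemma me_inl (a b : A) (y : E) : (ext D).act (Sum.inl a) (me D b y) =
    me D (a * b) (D.p1 a • y) := rfl

lemma me_inr (a b : A) (y : E) : (ext D).act (Sum.inr a) (me D b y) =
    me D (b * a) (D.p2 a • y + D.p1 b • D.pE a) := rfl

lemma me_add (b b' : A) (y y' : E) : me D b y + me D b' y' = me D (b + b') (y + y') := rfl

lemma me_smul (c : ℂ) (b : A) (y : E) : c • me D b y = me D (c • b) (c • y) := rfl

lemma exists_me (z : (ext D).carrier) : ∃ b y, z = me D b y := ⟨z.1, z.2, rfl⟩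

lemma ext_bi : BiMod A (ext D) where
  add_l a b x := by
    obtain ⟨c, y, rfl⟩ := exists_me D x
    rw [me_inl, me_inl, me_inl, me_add, map_add, add_smul, add_mul]
  smul_l k a x := by
    obtain ⟨c, y, rfl⟩ := exists_me D x
    rw [me_inl, me_inl, me_smul, map_smul, smul_eq_mul, mul_smul, smul_mul_assoc]
  mul_l a b x := by
    obtain ⟨c, y, rfl⟩ := exists_me D x
    rw [me_inl, me_inl, me_inl, D.p1_mul, mul_smul, mul_assoc]
  add_r a b x := by
    obtain ⟨c, y, rfl⟩ := exists_me D x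
    rw [me_inr, me_inr, me_inr, me_add, map_add, map_add, add_smul, mul_add, smul_add]
    congr 1
    abel
  smul_r k a x := by
    obtain ⟨c, y, rfl⟩ := exists_me D x
    rw [me_inr, me_inr, me_smul, map_smul, map_smul, smul_eq_mul, mul_smul, mul_smul_comm,
      smul_add, smul_comm (D.p1 c)]
  mul_r a b x := by
    obtain ⟨c, y, rfl⟩ := exists_me D x
    rw [me_inr, me_inr, me_inr, D.p1_mul, D.p2_mul, D.pE_mul, smul_add, smul_add,
      mul_comm (D.p2 a), mul_smul, mul_smul, mul_assoc, smul_comm (D.p1 c) (D.p2 b), add_assoc,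
      add_comm (D.p2 b • D.p1 c • D.pE a)]
  comm a b x := by
    obtain ⟨c, y, rfl⟩ := exists_me D x
    rw [me_inl, me_inr, me_inl, me_inr, D.p1_mul, smul_add, mul_smul,
      smul_comm (D.p1 a) (D.p2 b), mul_assoc]
  bound := by
    refine ⟨1 + ‖D.p1‖ + ‖D.p2‖ + ‖D.p1‖ * ‖D.pE‖, fun a x => ?_⟩
    obtain ⟨b, y, rfl⟩ := exists_me D x
    have h1 := D.p1.le_opNorm a
    have h2 := D.p2.le_opNorm a
    have h3 := D.pE.le_opNorm a
    have hb : ‖b‖ ≤ ‖me D b y‖ := norm_fst_le (E := A) (b, y)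
    have h4 : ‖D.p1 b‖ ≤ ‖D.p1‖ * ‖me D b y‖ :=
      (D.p1.le_opNorm b).trans (mul_le_mul_of_nonneg_left hb (norm_nonneg _))
    have hy : ‖y‖ ≤ ‖me D b y‖ := norm_snd_le (E := A) (b, y)
    have k0 : ‖a * b‖ ≤ (1 + ‖D.p1‖ + ‖D.p2‖ + ‖D.p1‖ * ‖D.pE‖) * ‖a‖ * ‖me D b y‖ := by
      calc _ ≤ ‖a‖ * ‖b‖ := norm_mul_le _ _
        _ ≤ ‖a‖ * ‖me D b y‖ := by gcongr
        _ ≤ ‖a‖ * ‖me D b y‖ + (‖D.p1‖ + ‖D.p2‖ + ‖D.p1‖ * ‖D.pE‖) * ‖a‖ * ‖me D b y‖ :=
            le_add_of_nonneg_right (by positivity)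
        _ = _ := by ring
    have k1 : ‖b * a‖ ≤ (1 + ‖D.p1‖ + ‖D.p2‖ + ‖D.p1‖ * ‖D.pE‖) * ‖a‖ * ‖me D b y‖ := by
      calc _ ≤ ‖b‖ * ‖a‖ := norm_mul_le _ _
        _ ≤ ‖me D b y‖ * ‖a‖ := by gcongr
        _ ≤ ‖me D b y‖ * ‖a‖ + (‖D.p1‖ + ‖D.p2‖ + ‖D.p1‖ * ‖D.pE‖) * ‖a‖ * ‖me D b y‖ :=
            le_add_of_nonneg_right (by positivity)
        _ = _ := by ring
    have k2 : ‖D.p1 a • y‖ ≤ (1 + ‖D.p1‖ + ‖D.p2‖ + ‖D.p1‖ * ‖D.pE‖) * ‖a‖ * ‖me D b y‖ := by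
      rw [norm_smul]
      calc _ ≤ (‖D.p1‖ * ‖a‖) * ‖me D b y‖ := by gcongr
        _ ≤ (‖D.p1‖ * ‖a‖) * ‖me D b y‖ +
            (1 + ‖D.p2‖ + ‖D.p1‖ * ‖D.pE‖) * ‖a‖ * ‖me D b y‖ :=
            le_add_of_nonneg_right (by positivity)
        _ = _ := by ring
    have k3 : ‖D.p2 a • y + D.p1 b • D.pE a‖ ≤
        (1 + ‖D.p1‖ + ‖D.p2‖ + ‖D.p1‖ * ‖D.pE‖) * ‖a‖ * ‖me D b y‖ := by
      calc _ ≤ ‖D.p2 a‖ * ‖y‖ + ‖D.p1 b‖ * ‖D.pE a‖ :=
            (norm_add_le _ _).trans (add_le_add (norm_smul _ _).le (norm_smul _ _).le)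
        _ ≤ (‖D.p2‖ * ‖a‖) * ‖me D b y‖ + (‖D.p1‖ * ‖me D b y‖) * (‖D.pE‖ * ‖a‖) := by gcongr
        _ ≤ (‖D.p2‖ * ‖a‖) * ‖me D b y‖ + (‖D.p1‖ * ‖me D b y‖) * (‖D.pE‖ * ‖a‖) +
              (1 + ‖D.p1‖) * ‖a‖ * ‖me D b y‖ := le_add_of_nonneg_right (by positivity)
        _ = _ := by ring
    exact ⟨max_le k0 k2, max_le k1 k3⟩

include D in
lemma reg_not_proj {x : E} (hx : x ≠ 0) : ¬ Proj (BiMod A) (regBi A) := by
  intro h
  obtain ⟨q, hq⟩ : ∃ q : (ext D).carrier →L[ℂ] A, ∀ b y, q (me D b y) = b :=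
    ⟨ContinuousLinearMap.fst ℂ A E, fun y l => rfl⟩
  obtain ⟨s, hs⟩ : ∃ s : A →L[ℂ] (ext D).carrier, ∀ b, s b = me D b 0 :=
    ⟨ContinuousLinearMap.inl ℂ A E, fun l => rfl⟩
  have H1 : ∀ (a : A) z, q ((ext D).act (Sum.inl a) z) = a * q z := by
    intro a z
    obtain ⟨b, y, rfl⟩ := exists_me D z
    rw [me_inl, hq, hq]
  have H1' : ∀ (a : A) z, q ((ext D).act (Sum.inr a) z) = q z * a := by
    intro a z
    obtain ⟨b, y, rfl⟩ := exists_me D z
    rw [me_inr, hq, hq]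
  have H2 : ∀ b, q (s b) = b := fun b => by rw [hs, hq]
  obtain ⟨g, hg, hgq⟩ := h (ext D) (regBi A) (ext_bi D) regBi_bim q (by
    rintro (a | a) z
    · exact H1 a z
    · exact H1' a z) s H2 (ContinuousLinearMap.id ℂ A) (fun a x => rfl)
  have hg1 : ∀ a b : A, g (a * b : A) = (ext D).act (Sum.inl a) (g b) :=
    fun a b => hg (Sum.inl a) b
  have hg2 : ∀ a b : A, g (b * a : A) = (ext D).act (Sum.inr a) (g b) :=
    fun a b => hg (Sum.inr a) b
  have hgq' : ∀ x : A, q (g x) = x := hgq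
  have e1 : D.e1 * D.io x = D.io x := by rw [D.mul_io, D.p1_e1, one_smul]
  have e2 : D.io x * D.e2 = D.io x := by rw [D.io_mul, D.p2_e2, one_smul]
  obtain ⟨b1, y1, h1⟩ := exists_me D (g D.e1)
  obtain ⟨b2, y2, h2⟩ := exists_me D (g D.e2)
  have k1 := hg2 (D.io x) D.e1
  have k2 := hg1 (D.io x) D.e2
  have hb1 := hgq' D.e1
  rw [h1, hq] at hb1
  rw [e1, h1, me_inr, D.p2_io, D.pE_io, zero_smul, zero_add, hb1, D.p1_e1, one_smul] at k1
  rw [e2, h2, me_inl, D.p1_io, zero_smul] at k2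
  rw [k1] at k2
  have h4 : x = 0 := congrArg Prod.snd (show ((D.e1 * D.io x, x) : A × E) = (_, 0) from k2)
  exact hx h4

include D in
/-- The bidimension. -/
theorem biDim_eq {x : E} (hx : x ≠ 0) : Hd.biDim A = 1 := by
  refine le_antisymm ?_ ?_
  · obtain ⟨Q⟩ := bi_resol D
    have h := homDim_up_le (rel_bi A) Q
    unfold Hd.biDim
    rw [regBi_eq]
    exact_mod_cast h
  · unfold Hd.biDim
    rw [regBi_eq]
    exact one_le_homDim (rel_bi A) (reg_not_proj D hx)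

end

include D in
/-- The global dimension. -/
theorem globalDim_eq {x : E} (hx : x ≠ 0) : Hd.globalDim A = 1 := by
  refine le_antisymm ?_ ?_
  · refine iSup₂_le fun X hX => ?_
    obtain ⟨Q⟩ := left_resol D ((rel_left A).dn X hX)
    have h := homDim_dn_le (rel_left A) X hX Q
    exact_mod_cast h
  · have h1 := one_le_homDim (rel_left A) (S2_not_proj D hx)
    exact h1.trans (le_iSup₂ (f := fun (X : Hd.OpMod A) (_ : Hd.LeftMod A X) =>
      Hd.homDim (Hd.LeftMod A) X) (up (S2 D)) ((rel_left A).up _ (S2_left D)))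

end

end Pool.Agent.Helper5.Tri
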