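import Mathlib
import Pool.Agent.Helper5.Tri.Low

/-!
The concrete triangular algebra and its involution.
-/

namespace Pool.Agent.Helper5.Tri

open Pool.Agent.Helper5 Pool.Agent.Helper5.Dg
open scoped ComplexConjugate

noncomputable section

/-- Bounded sequences, as a bimodule over pairs of scalars. -/
def MM : Type := BoundedContinuousFunction ℕ ℂ

instance : NormedAddCommGroup MM := inferInstanceAs (NormedAddCommGroup (BoundedContinuousFunction ℕ ℂ))

instance : NormedSpace ℂ MM := inferInstanceAs (NormedSpace ℂ (BoundedContinuousFunction ℕ ℂ))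

instance : CompleteSpace MM := inferInstanceAs (CompleteSpace (BoundedContinuousFunction ℕ ℂ))

instance : Module (ℂ × ℂ) MM := Module.compHom MM (RingHom.fst ℂ ℂ)

instance : Module (ℂ × ℂ)ᵐᵒᵖ MM :=
  Module.compHom MM ((RingHom.snd ℂ ℂ).fromOpposite fun _ _ => mul_comm _ _)

lemma smul_l (r : ℂ × ℂ) (x : MM) : r • x = r.1 • x := rfl

lemma smul_r (r : (ℂ × ℂ)ᵐᵒᵖ) (x : MM) : r • x = r.unop.2 • x := rfl

instance : IsBoundedSMul (ℂ × ℂ) MM := IsBoundedSMul.of_norm_smul_le fun r x => by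
  rw [smul_l, norm_smul]
  exact mul_le_mul_of_nonneg_right (norm_fst_le r) (norm_nonneg _)

instance : IsBoundedSMul (ℂ × ℂ)ᵐᵒᵖ MM := IsBoundedSMul.of_norm_smul_le fun r x => by
  rw [smul_r, norm_smul]
  exact mul_le_mul_of_nonneg_right (norm_snd_le r.unop) (norm_nonneg _)

instance : SMulCommClass (ℂ × ℂ) (ℂ × ℂ)ᵐᵒᵖ MM where
  smul_comm r s x := by
    rw [smul_l, smul_r, smul_l, smul_r, smul_comm]

instance : IsScalarTower ℂ (ℂ × ℂ) MM where
  smul_assoc c r x := by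
    rw [smul_l, smul_l]
    show (c * r.1) • x = c • r.1 • x
    rw [mul_smul]

instance : IsScalarTower ℂ (ℂ × ℂ)ᵐᵒᵖ MM where
  smul_assoc c r x := by
    rw [smul_r, smul_r]
    show (c * r.unop.2) • x = c • r.unop.2 • x
    rw [mul_smul]

/-- The triangular algebra. -/
abbrev TA : Type := TrivSqZeroExt (ℂ × ℂ) MM

/-- Elements of the triangular algebra. -/
def mT (a c : ℂ) (x : MM) : TA := TrivSqZeroExt.inl (a, c) + TrivSqZeroExt.inr x

lemma mT_ext {z w : TA} (h1 : z.fst.1 = w.fst.1) (h2 : z.fst.2 = w.fst.2)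
    (h3 : z.snd = w.snd) : z = w := TrivSqZeroExt.ext (Prod.ext h1 h2) h3

lemma mT_1 (a c : ℂ) (x : MM) : (mT a c x).fst.1 = a := by simp [mT]

lemma mT_2 (a c : ℂ) (x : MM) : (mT a c x).fst.2 = c := by simp [mT]

lemma mT_3 (a c : ℂ) (x : MM) : (mT a c x).snd = x := by simp [mT]

lemma add_1 (z w : TA) : (z + w).fst.1 = z.fst.1 + w.fst.1 := rfl
lemma add_2 (z w : TA) : (z + w).fst.2 = z.fst.2 + w.fst.2 := rfl
lemma add_3 (z w : TA) : (z + w).snd = z.snd + w.snd := rfl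
lemma smul_1 (c : ℂ) (z : TA) : (c • z).fst.1 = c * z.fst.1 := rfl
lemma smul_2 (c : ℂ) (z : TA) : (c • z).fst.2 = c * z.fst.2 := rfl
lemma smul_3 (c : ℂ) (z : TA) : (c • z).snd = c • z.snd := rfl
lemma mul_1 (z w : TA) : (z * w).fst.1 = z.fst.1 * w.fst.1 := rfl
lemma mul_2 (z w : TA) : (z * w).fst.2 = z.fst.2 * w.fst.2 := rfl
lemma mul_3 (z w : TA) : (z * w).snd = z.fst.1 • w.snd + w.fst.2 • z.snd := rfl

lemma norm_TA (z : TA) : ‖z‖ = ‖z.fst‖ + ‖z.snd‖ := TrivSqZeroExt.norm_def z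

lemma norm_1 (z : TA) : ‖z.fst.1‖ ≤ 1 * ‖z‖ := by
  rw [norm_TA, one_mul]
  exact (norm_fst_le z.fst).trans (le_add_of_nonneg_right (norm_nonneg _))

lemma norm_2 (z : TA) : ‖z.fst.2‖ ≤ 1 * ‖z‖ := by
  rw [norm_TA, one_mul]
  exact (norm_snd_le z.fst).trans (le_add_of_nonneg_right (norm_nonneg _))

lemma norm_3 (z : TA) : ‖z.snd‖ ≤ 1 * ‖z‖ := by
  rw [norm_TA, one_mul]
  exact le_add_of_nonneg_left (norm_nonneg _)

/-- The triangular data. -/
def dT : TD TA MM where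
  e1 := mT 1 0 0
  e2 := mT 0 1 0
  io := LinearMap.mkContinuous
    ({ toFun := fun x => mT 0 0 x
       map_add' := fun x y => mT_ext (by rw [add_1, mT_1, mT_1, mT_1, add_zero])
        (by rw [add_2, mT_2, mT_2, mT_2, add_zero]) (by rw [add_3, mT_3, mT_3, mT_3])
       map_smul' := fun c x => mT_ext (by rw [RingHom.id_apply, smul_1, mT_1, mT_1, mul_zero])
        (by rw [RingHom.id_apply, smul_2, mT_2, mT_2, mul_zero])
        (by rw [RingHom.id_apply, smul_3, mT_3, mT_3]) } : MM →ₗ[ℂ] TA) 1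
    (fun x => by
      show ‖mT 0 0 x‖ ≤ _
      rw [norm_TA, mT_3]
      have : (mT 0 0 x).fst = 0 := Prod.ext (mT_1 0 0 x) (mT_2 0 0 x)
      rw [this, norm_zero, zero_add, one_mul])
  p1 := LinearMap.mkContinuous
    ({ toFun := fun z => z.fst.1, map_add' := add_1, map_smul' := smul_1 } : TA →ₗ[ℂ] ℂ) 1 norm_1
  p2 := LinearMap.mkContinuous
    ({ toFun := fun z => z.fst.2, map_add' := add_2, map_smul' := smul_2 } : TA →ₗ[ℂ] ℂ) 1 norm_2
  pE := LinearMap.mkContinuous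
    ({ toFun := fun z => z.snd, map_add' := add_3, map_smul' := smul_3 } : TA →ₗ[ℂ] MM) 1 norm_3
  dec a := mT_ext
    (by
      show a.fst.1 = a.fst.1 * (mT 1 0 0).fst.1 + a.fst.2 * (mT 0 1 0).fst.1 +
        (mT 0 0 a.snd).fst.1
      rw [mT_1, mT_1, mT_1, mul_one, mul_zero, add_zero, add_zero])
    (by
      show a.fst.2 = a.fst.1 * (mT 1 0 0).fst.2 + a.fst.2 * (mT 0 1 0).fst.2 +
        (mT 0 0 a.snd).fst.2
      rw [mT_2, mT_2, mT_2, mul_one, mul_zero, zero_add, add_zero])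
    (by
      show a.snd = a.fst.1 • (mT 1 0 0).snd + a.fst.2 • (mT 0 1 0).snd + (mT 0 0 a.snd).snd
      rw [mT_3, mT_3, mT_3, smul_zero, smul_zero, add_zero, zero_add])
  p1_e1 := mT_1 _ _ _
  p1_e2 := mT_1 _ _ _
  p1_io x := mT_1 _ _ _
  p2_e1 := mT_2 _ _ _
  p2_e2 := mT_2 _ _ _
  p2_io x := mT_2 _ _ _
  pE_e1 := mT_3 _ _ _
  pE_e2 := mT_3 _ _ _
  pE_io x := mT_3 _ _ _
  mul_e1 a := mT_ext
    (by
      show a.fst.1 * (mT 1 0 0).fst.1 = a.fst.1 * (mT 1 0 0).fst.1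
      rfl)
    (by
      show a.fst.2 * (mT 1 0 0).fst.2 = a.fst.1 * (mT 1 0 0).fst.2
      rw [mT_2, mul_zero, mul_zero])
    (by
      show a.fst.1 • (mT 1 0 0).snd + (mT 1 0 0).fst.2 • a.snd = a.fst.1 • (mT 1 0 0).snd
      rw [mT_2, mT_3, zero_smul, add_zero])
  e1_mul a := mT_ext
    (by
      show (mT 1 0 0).fst.1 * a.fst.1 = a.fst.1 * (mT 1 0 0).fst.1 + (mT 0 0 a.snd).fst.1
      rw [mT_1, mT_1, add_zero, mul_comm])
    (by
      show (mT 1 0 0).fst.2 * a.fst.2 = a.fst.1 * (mT 1 0 0).fst.2 + (mT 0 0 a.snd).fst.2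
      rw [mT_2, mT_2, zero_mul, mul_zero, add_zero])
    (by
      show (mT 1 0 0).fst.1 • a.snd + a.fst.2 • (mT 1 0 0).snd =
        a.fst.1 • (mT 1 0 0).snd + (mT 0 0 a.snd).snd
      rw [mT_1, mT_3, mT_3, one_smul, smul_zero, smul_zero, add_zero, zero_add])
  mul_e2 a := mT_ext
    (by
      show a.fst.1 * (mT 0 1 0).fst.1 = a.fst.2 * (mT 0 1 0).fst.1 + (mT 0 0 a.snd).fst.1
      rw [mT_1, mT_1, mul_zero, mul_zero, add_zero])
    (by
      show a.fst.2 * (mT 0 1 0).fst.2 = a.fst.2 * (mT 0 1 0).fst.2 + (mT 0 0 a.snd).fst.2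
      rw [mT_2, mT_2, add_zero])
    (by
      show a.fst.1 • (mT 0 1 0).snd + (mT 0 1 0).fst.2 • a.snd =
        a.fst.2 • (mT 0 1 0).snd + (mT 0 0 a.snd).snd
      rw [mT_2, mT_3, mT_3, one_smul, smul_zero, smul_zero])
  e2_mul a := mT_ext
    (by
      show (mT 0 1 0).fst.1 * a.fst.1 = a.fst.2 * (mT 0 1 0).fst.1
      rw [mT_1, zero_mul, mul_zero])
    (by
      show (mT 0 1 0).fst.2 * a.fst.2 = a.fst.2 * (mT 0 1 0).fst.2
      rw [mul_comm])
    (by
      show (mT 0 1 0).fst.1 • a.snd + a.fst.2 • (mT 0 1 0).snd = a.fst.2 • (mT 0 1 0).snd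
      rw [mT_1, zero_smul, zero_add])
  mul_io a x := mT_ext
    (by
      show a.fst.1 * (mT 0 0 x).fst.1 = a.fst.1 * (mT 0 0 x).fst.1
      rfl)
    (by
      show a.fst.2 * (mT 0 0 x).fst.2 = a.fst.1 * (mT 0 0 x).fst.2
      rw [mT_2, mul_zero, mul_zero])
    (by
      show a.fst.1 • (mT 0 0 x).snd + (mT 0 0 x).fst.2 • a.snd = a.fst.1 • (mT 0 0 x).snd
      rw [mT_2, zero_smul, add_zero])
  io_mul x a := mT_ext
    (by
      show (mT 0 0 x).fst.1 * a.fst.1 = a.fst.2 * (mT 0 0 x).fst.1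
      rw [mT_1, zero_mul, mul_zero])
    (by
      show (mT 0 0 x).fst.2 * a.fst.2 = a.fst.2 * (mT 0 0 x).fst.2
      rw [mul_comm])
    (by
      show (mT 0 0 x).fst.1 • a.snd + a.fst.2 • (mT 0 0 x).snd = a.fst.2 • (mT 0 0 x).snd
      rw [mT_1, zero_smul, zero_add])

/-- Conjugation of bounded sequences. -/
def cj (x : MM) : MM := @star (BoundedContinuousFunction ℕ ℂ) _ x

lemma cj_add (x y : MM) : cj (x + y) = cj x + cj y :=
  @star_add (BoundedContinuousFunction ℕ ℂ) _ _ x y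

lemma cj_smul (c : ℂ) (x : MM) : cj (c • x) = conj c • cj x :=
  @star_smul ℂ (BoundedContinuousFunction ℕ ℂ) _ _ _ _ c x

lemma cj_cj (x : MM) : cj (cj x) = x := @star_star (BoundedContinuousFunction ℕ ℂ) _ x

lemma norm_cj (x : MM) : ‖cj x‖ = ‖x‖ := @norm_star (BoundedContinuousFunction ℕ ℂ) _ _ _ x

/-- The involution. -/
def st (z : TA) : TA := mT (conj z.fst.2) (conj z.fst.1) (cj z.snd)

lemma st_add (z w : TA) : st (z + w) = st z + st w := by
  refine mT_ext ?_ ?_ ?_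
  · rw [add_1]
    unfold st
    rw [mT_1, mT_1, mT_1, add_2, map_add]
  · rw [add_2]
    unfold st
    rw [mT_2, mT_2, mT_2, add_1, map_add]
  · rw [add_3]
    unfold st
    rw [mT_3, mT_3, mT_3, add_3, cj_add]

lemma st_smul (c : ℂ) (z : TA) : st (c • z) = conj c • st z := by
  refine mT_ext ?_ ?_ ?_
  · rw [smul_1]
    unfold st
    rw [mT_1, mT_1, smul_2, map_mul]
  · rw [smul_2]
    unfold st
    rw [mT_2, mT_2, smul_1, map_mul]
  · rw [smul_3]
    unfold st
    rw [mT_3, mT_3, smul_3, cj_smul]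

lemma st_mul (z w : TA) : st (z * w) = st w * st z := by
  refine mT_ext ?_ ?_ ?_
  · rw [mul_1]
    unfold st
    rw [mT_1, mT_1, mT_1, mul_2, map_mul, mul_comm]
  · rw [mul_2]
    unfold st
    rw [mT_2, mT_2, mT_2, mul_1, map_mul, mul_comm]
  · rw [mul_3]
    unfold st
    rw [mT_3, mT_3, mT_3, mT_1, mT_2, mul_3, cj_add, cj_smul, cj_smul, add_comm]

lemma st_st (z : TA) : st (st z) = z := by
  refine mT_ext ?_ ?_ ?_
  · unfold st
    rw [mT_1, mT_2, Complex.conj_conj]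
  · unfold st
    rw [mT_2, mT_1, Complex.conj_conj]
  · unfold st
    rw [mT_3, mT_3, cj_cj]

lemma norm_st (z : TA) : ‖st z‖ = ‖z‖ := by
  rw [norm_TA, norm_TA]
  have h3 : (st z).snd = cj z.snd := mT_3 _ _ _
  have h1 : (st z).fst = (conj z.fst.2, conj z.fst.1) := Prod.ext (mT_1 _ _ _) (mT_2 _ _ _)
  rw [h3, norm_cj, h1, Prod.norm_def, Prod.norm_def, RCLike.norm_conj, RCLike.norm_conj,
    max_comm]

/-- The triangular algebra is infinite-dimensional. -/
lemma TA_inf : ¬ FiniteDimensional ℂ TA := by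
  intro h
  have h1 : FiniteDimensional ℂ MM := by
    have hinj : Function.Injective (dT.io : MM →ₗ[ℂ] TA) := by
      intro x y hxy
      have := congrArg dT.pE (show dT.io x = dT.io y from hxy)
      rwa [dT.pE_io, dT.pE_io] at this
    exact FiniteDimensional.of_injective _ hinj
  have h2 : FiniteDimensional ℂ (BoundedContinuousFunction ℕ ℂ) := h1
  have h3 : ∀ n : ℕ, n ≤ Module.finrank ℂ (BoundedContinuousFunction ℕ ℂ) := by
    intro n
    let T : BoundedContinuousFunction ℕ ℂ →ₗ[ℂ] (Fin n → ℂ) :=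
      { toFun := fun f i => f i
        map_add' := fun f g => rfl
        map_smul' := fun c f => rfl }
    have hT : Function.Surjective T := by
      intro v
      refine ⟨BoundedContinuousFunction.ofNormedAddCommGroupDiscrete
        (fun k => if hk : k < n then v ⟨k, hk⟩ else 0) ‖v‖ (fun k => ?_), ?_⟩
      · split_ifs with hk
        · exact norm_le_pi_norm v _
        · rw [norm_zero]
          exact norm_nonneg _
      · funext i
        show (if hk : (i : ℕ) < n then v ⟨i, hk⟩ else 0) = v i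
        rw [dif_pos i.2]
    have := LinearMap.finrank_le_finrank_of_surjective hT
    rwa [Module.finrank_fin_fun] at this
  exact absurd (h3 (Module.finrank ℂ (BoundedContinuousFunction ℕ ℂ) + 1)) (by omega)

lemma exists_ne : ∃ x : MM, x ≠ 0 := by
  by_contra h
  push Not at h
  have h1 : (show MM from (1 : BoundedContinuousFunction ℕ ℂ)) = 0 := h _
  have h2 : (1 : BoundedContinuousFunction ℕ ℂ) = 0 := h1
  have h3 : (1 : BoundedContinuousFunction ℕ ℂ) 0 = (0 : BoundedContinuousFunction ℕ ℂ) 0 := by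
    rw [h2]
  exact one_ne_zero (α := ℂ) h3

theorem TA_globalDim : Hd.globalDim TA = 1 := by
  obtain ⟨x, hx⟩ := exists_ne
  exact globalDim_eq dT hx

theorem TA_biDim : Hd.biDim TA = 1 := by
  obtain ⟨x, hx⟩ := exists_ne
  exact biDim_eq dT hx

end

end Pool.Agent.Helper5.Tri
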