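import Mathlib
import Pool.Agent.Helper5.Dg.Pub

/-!
Projectivity in the retraction form, resolutions, dimensions, involutions: the definitions of the
final statement. The modules and morphisms are those of `Pool.Agent.Helper5.Hd`.
-/

namespace Pool.Agent.Helper5.Td

open Pool.Agent.Helper5.Hd

noncomputable section

variable {R : Type}

/-- Projectivity in the class `K`: every morphism `q : Y → P` from a module `Y` of the class that
has a bounded linear right inverse has a right inverse that is a morphism. -/
def IsProj (K : OpMod R → Prop) (P : OpMod R) : Prop :=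
  ∀ Y : OpMod R, K Y → ∀ (q : Y.carrier → P.carrier) (s : P.carrier → Y.carrier),
    IsMor Y P q → IsBdd P Y s → (∀ x, q (s x) = x) →
    ∃ g : P.carrier → Y.carrier, IsMor P Y g ∧ ∀ x, q (g x) = x

/-- The maps `e : P 0 → X`, `d i : P (i + 1) → P i` form a resolution of `X` by projective modules
of the class `K` with `P i = 0` for `i > n`, which is admissible: the bounded linear maps
`t : X → P 0`, `s i : P i → P (i + 1)` are a contracting homotopy. -/
structure IsRes (K : OpMod R → Prop) (n : ℕ) (X : OpMod R) (P : ℕ → OpMod R)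
    (e : (P 0).carrier → X.carrier) (d : ∀ i, (P (i + 1)).carrier → (P i).carrier)
    (t : X.carrier → (P 0).carrier) (s : ∀ i, (P i).carrier → (P (i + 1)).carrier) : Prop where
  mem : ∀ i, K (P i)
  proj : ∀ i, IsProj K (P i)
  zero : ∀ i, n < i → ∀ x, x = zer (P i)
  mor_e : IsMor (P 0) X e
  mor_d : ∀ i, IsMor (P (i + 1)) (P i) (d i)
  bdd_t : IsBdd X (P 0) t
  bdd_s : ∀ i, IsBdd (P i) (P (i + 1)) (s i)
  e_d : ∀ x, e (d 0 x) = zer X
  d_d : ∀ i x, d i (d (i + 1) x) = zer (P i)
  e_t : ∀ x, e (t x) = x
  t_e : ∀ x, plus (P 0) (t (e x)) (d 0 (s 0 x)) = x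
  s_d : ∀ i x, plus (P (i + 1)) (s i (d i x)) (d (i + 1) (s (i + 1) x)) = x

/-- The homological dimension of `X` in the class `K`. -/
def dh (K : OpMod R → Prop) (X : OpMod R) : ℕ∞ :=
  sInf {N : ℕ∞ | ∃ n : ℕ, N = n ∧ ∃ P e d t s, IsRes K n X P e d t s}

section Algebra

variable (A : Type) [NormedRing A] [NormedAlgebra ℂ A]

/-- The left global dimension: the supremum of `dh X` over all left Banach modules `X`. -/
def dg : ℕ∞ := ⨆ (X : OpMod A) (_ : LeftMod A X), dh (LeftMod A) X

/-- The unitization of `A` as a Banach `A`-bimodule: pairs `(b, l)` standing for `b + l 1`. -/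
def unitBi [CompleteSpace A] : OpMod (A ⊕ A) where
  carrier := A × ℂ
  act := Sum.elim (fun a x => (a * x.1 + x.2 • a, 0)) (fun a x => (x.1 * a + x.2 • a, 0))

/-- The bidimension: the homological dimension of the bimodule `A_+`. -/
def db [CompleteSpace A] : ℕ∞ := dh (BiMod A) (unitBi A)

/-- Isometric involutions. -/
structure IsInvol (st : A → A) : Prop where
  add : ∀ x y, st (x + y) = st x + st y
  smul : ∀ (c : ℂ) x, st (c • x) = starRingEnd ℂ c • st x
  mul : ∀ x y, st (x * y) = st y * st x
  invol : ∀ x, st (st x) = x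
  isom : ∀ x, ‖st x‖ = ‖x‖

end Algebra

end

end Pool.Agent.Helper5.Td
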