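import Mathlib
import Pool.Agent.Helper5.Tri.Defs
import Pool.Agent.Helper5.Tri.Conc

/-!
The final comparison.
-/

namespace Pool.Agent.Helper5.Tri

open Pool.Agent.Helper5 Pool.Agent.Helper5.Dg

noncomputable section

section Gen

variable {R : Type} {K : Hd.OpMod R → Prop} {K' : OpMod R → Prop}

lemma isProj_of {P : Hd.OpMod R} (hK : K P) (h : Hd.Proj K P) : Td.IsProj K P := by
  intro Y hY q s hq hs hqs
  exact h Y P hY hK q s hq hs hqs (fun x => x)
    ⟨⟨fun _ _ => rfl, fun _ _ => rfl, 1, fun x => (one_mul _).ge⟩, fun _ _ => rfl⟩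

lemma isRes_of {n : ℕ} {X : Hd.OpMod R} {P : ℕ → Hd.OpMod R}
    {e : (P 0).carrier → X.carrier} {d : ∀ i, (P (i + 1)).carrier → (P i).carrier}
    {t : X.carrier → (P 0).carrier} {s : ∀ i, (P i).carrier → (P (i + 1)).carrier}
    (h : Hd.IsResol K n X P e d t s) : Td.IsRes K n X P e d t s where
  mem := h.mem
  proj i := isProj_of (h.mem i) (h.proj i)
  zero := h.zero
  mor_e := h.mor_e
  mor_d := h.mor_d
  bdd_t := h.bdd_t
  bdd_s := h.bdd_s
  e_d := h.e_d
  d_d := h.d_d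
  e_t := h.e_t
  t_e := h.t_e
  s_d := h.s_d

lemma dh_up_le (hR : Rel K K') {n : ℕ} {X : OpMod R} (Q : Resol K' n X) :
    Td.dh K (up X) ≤ n :=
  sInf_le ⟨n, rfl, _, _, _, _, _, isRes_of (resol_up hR Q)⟩

lemma dh_dn_le (hR : Rel K K') {n : ℕ} (X : Hd.OpMod R) (hX : K X)
    (Q : Resol K' n (dn X (hR.bdd X hX))) : Td.dh K X ≤ n := by
  have h := dh_up_le hR Q
  rw [up_dn] at h
  exact h

/-- The working form of projectivity in the retraction form. -/
def Retr (K' : OpMod R → Prop) (X : OpMod R) : Prop :=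
  ∀ Y : OpMod R, K' Y → ∀ q : Y.carrier →L[ℂ] X.carrier, IsMor Y X q →
    ∀ s : X.carrier →L[ℂ] Y.carrier, (∀ x, q (s x) = x) →
    ∃ g : X.carrier →L[ℂ] Y.carrier, IsMor X Y g ∧ ∀ x, q (g x) = x

lemma retr_dn (hR : Rel K K') {P : Hd.OpMod R} (hP : K P) (h : Td.IsProj K P) :
    Retr K' (dn P (hR.bdd P hP)) := by
  intro Y hY q hq s hs
  obtain ⟨g, hg, hgq⟩ := h (up Y) (hR.up Y hY) (fun x => q x) (fun x => s x)
    ⟨bdd_of_clm (up Y) P q, hq⟩ (bdd_of_clm P (up Y) s) hs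
  exact ⟨clm hg.bdd, hg.comm, hgq⟩

lemma one_le_dh (hR : Rel K K') {X : OpMod R} (h : ¬ Retr K' X) : 1 ≤ Td.dh K (up X) := by
  refine le_sInf ?_
  rintro N ⟨n, rfl, P, e, d, t, s, hQ⟩
  rcases Nat.eq_zero_or_pos n with h0 | h0
  · exfalso
    subst h0
    refine h ?_
    intro Y hY q hq s' hs'
    have hP := retr_dn hR (hQ.mem 0) (hQ.proj 0)
    have ht : ∀ x, t (e x) = x := by
      intro x
      have h1 := hQ.t_e x
      have h2 : s 0 x = Hd.zer (P 1) := hQ.zero 1 (by omega) (s 0 x)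
      have h3 : d 0 (Hd.zer (P 1)) = Hd.zer (P 0) := by
        have h4 := (hQ.mor_d 0).bdd.smul 0 (Hd.zer (P 1))
        have h5 : Hd.scal (P (0 + 1)) 0 (Hd.zer (P 1)) = Hd.zer (P 1) :=
          zero_smul ℂ (0 : (P 1).carrier)
        rw [h5] at h4
        rw [h4]
        exact zero_smul ℂ _
      rw [h2, h3] at h1
      have h6 : ∀ y : (P 0).carrier, Hd.plus (P 0) y (Hd.zer (P 0)) = y := fun y => add_zero y
      rwa [h6] at h1
    obtain ⟨T, hT⟩ : ∃ T : X.carrier →L[ℂ] (P 0).carrier, ∀ x, T x = t x :=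
      ⟨clm (X := up X) hQ.bdd_t, fun x => rfl⟩
    obtain ⟨E, hE⟩ : ∃ E : (P 0).carrier →L[ℂ] X.carrier, ∀ x, E x = e x :=
      ⟨clm (Y := up X) hQ.mor_e.bdd, fun x => rfl⟩
    have hET : ∀ x, E (T x) = x := fun x => by
      rw [hT, hE]
      exact hQ.e_t x
    have hTE : ∀ x, T (E x) = x := fun x =>
      ((congrArg T (hE x)).trans (hT (e x))).trans (ht x)
    have hEm : ∀ r x, E ((P 0).act r x) = X.act r (E x) := by
      intro r x
      rw [hE, hE]
      exact hQ.mor_e.comm r x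
    have hTm : ∀ r x, T (X.act r x) = (P 0).act r (T x) := by
      intro r x
      have h1 := hEm r (T x)
      rw [hET] at h1
      rw [← h1, hTE]
    obtain ⟨g, hg, hgq⟩ := hP Y hY (T.comp q) (fun r x => by
      show T (q (Y.act r x)) = (P 0).act r (T (q x))
      rw [hq, hTm]) (s'.comp E) (fun x => by
      have h7 : ∀ x : (P 0).carrier, T (q (s' (E x))) = x := fun x => by
        rw [hs', hTE]
      exact h7 x)
    have hg' : ∀ r (x : (P 0).carrier), g ((P 0).act r x) = Y.act r (g x) := hg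
    have hgq' : ∀ x : (P 0).carrier, T (q (g x)) = x := hgq
    refine ⟨(show (P 0).carrier →L[ℂ] Y.carrier from g).comp T, fun r x => ?_, fun x => ?_⟩
    · show g (T (X.act r x)) = Y.act r (g (T x))
      rw [hTm, hg']
    · show q (g (T x)) = x
      have h1 := congrArg E (hgq' (T x))
      rwa [hET, hET] at h1
  · exact_mod_cast h0

end Gen

end

end Pool.Agent.Helper5.Tri
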