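import Mathlib
import Pool.Agent.Helper5.Tri.Fin

/-!
The unitization bimodule.
-/

namespace Pool.Agent.Helper5.Tri

open Pool.Agent.Helper5 Pool.Agent.Helper5.Dg

noncomputable section

variable {A : Type} [NormedRing A] [NormedAlgebra ℂ A] {E : Type} [NormedAddCommGroup E]
  [NormedSpace ℂ E] [CompleteSpace E] (D : TD A E)

lemma S2_not_retr {x : E} (hx : x ≠ 0) : ¬ Retr (LeftMod A) (S2 D) := by
  intro h
  obtain ⟨q, hq⟩ : ∃ q : (b2 D).carrier →L[ℂ] ℂ, ∀ y l, q (m2 D y l) = l :=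
    ⟨ContinuousLinearMap.snd ℂ E ℂ, fun y l => rfl⟩
  obtain ⟨s, hs⟩ : ∃ s : ℂ →L[ℂ] (b2 D).carrier, ∀ l, s l = m2 D 0 l :=
    ⟨ContinuousLinearMap.inr ℂ E ℂ, fun l => rfl⟩
  have H1 : ∀ (a : A) z, q ((b2 D).act (Sum.inl a) z) = D.p2 a * q z := by
    intro a z
    obtain ⟨y, l, rfl⟩ := exists_m2 D z
    rw [m2_inl, hq, hq]
  have H2 : ∀ l, q (s l) = l := fun l => by rw [hs, hq]
  obtain ⟨g, hg, hgq⟩ := h (L2 D) (L2_left D) q H1 s H2
  have hg' : ∀ (a : A) (x : ℂ), g (D.p2 a * x : ℂ) =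
      (b2 D).act (Sum.inl a) (g x : (b2 D).carrier) := hg
  have hgq' : ∀ x : ℂ, q (g x : (b2 D).carrier) = x := hgq
  obtain ⟨y, l, hyl⟩ := exists_m2 D (g (1 : ℂ))
  have h1 := hg' (D.io x) 1
  have h2 := hgq' 1
  rw [hyl, hq] at h2
  rw [D.p2_io, zero_mul, hyl, m2_inl, D.p1_io, D.pE_io, D.p2_io, h2, zero_smul, zero_add,
    one_smul, zero_mul] at h1
  have h3 : g (0 : ℂ) = m2 D 0 0 := map_zero g
  rw [h3] at h1
  have h4 : (0 : E) = x := congrArg Prod.fst (show ((0, 0) : E × ℂ) = (x, 0) from h1)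
  exact hx h4.symm

/-- The unit of the algebra. -/
def ee : A := D.e1 + D.e2

omit [CompleteSpace E] in
lemma mul_ee (a : A) : a * ee D = a := by
  unfold ee
  rw [mul_add, D.mul_e1, D.mul_e2, ← add_assoc]
  exact (D.dec a).symm

omit [CompleteSpace E] in
lemma ee_mul (a : A) : ee D * a = a := by
  unfold ee
  rw [add_mul, D.e1_mul, D.e2_mul, add_right_comm]
  exact (D.dec a).symm

/-- The bimodule with zero action. -/
def triv (A : Type) : OpMod (A ⊕ A) where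
  carrier := ℂ
  act _ := 0

/-- Elements. -/
def mt (A : Type) (l : ℂ) : (triv A).carrier := l

omit [NormedRing A] [NormedAlgebra ℂ A] in
lemma exists_mt (x : (triv A).carrier) : ∃ l, x = mt A l := ⟨x, rfl⟩

omit [NormedRing A] [NormedAlgebra ℂ A] in
lemma mt_smul (c l : ℂ) : c • mt A l = mt A (c * l) := rfl

omit [NormedRing A] [NormedAlgebra ℂ A] in
lemma triv_act (r : A ⊕ A) (x : (triv A).carrier) : (triv A).act r x = 0 := rfl

lemma triv_bi : BiMod A (triv A) where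
  add_l a b x := by rw [triv_act, triv_act, triv_act, add_zero]
  smul_l c a x := by rw [triv_act, triv_act, smul_zero]
  mul_l a b x := by rw [triv_act, triv_act]
  add_r a b x := by rw [triv_act, triv_act, triv_act, add_zero]
  smul_r c a x := by rw [triv_act, triv_act, smul_zero]
  mul_r a b x := by rw [triv_act, triv_act]
  comm a b x := by rw [triv_act, triv_act]
  bound := ⟨0, fun a x => by
    rw [triv_act, triv_act, norm_zero, zero_mul, zero_mul]
    exact ⟨le_rfl, le_rfl⟩⟩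

include D in
lemma triv_proj : Proj (BiMod A) (triv A) := by
  intro M F hM hF q hq s hs f hf
  obtain ⟨w, hw⟩ : ∃ w, w = f (mt A 1) := ⟨_, rfl⟩
  have hw0 : ∀ r, F.act r w = 0 := by
    intro r
    rw [hw, ← hf, triv_act, map_zero]
  obtain ⟨u1, hu1⟩ : ∃ u1, u1 = s w - M.act (Sum.inl (ee D)) (s w) := ⟨_, rfl⟩
  obtain ⟨u, hu⟩ : ∃ u, u = u1 - M.act (Sum.inr (ee D)) u1 := ⟨_, rfl⟩
  have k1 : ∀ a, M.act (Sum.inl a) u1 = 0 := by
    intro a
    rw [hu1, map_sub, ← hM.mul_l, mul_ee, sub_self]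
  have k2 : ∀ a, M.act (Sum.inl a) u = 0 := by
    intro a
    rw [hu, map_sub, k1, hM.comm, k1, map_zero, sub_zero]
  have k3 : ∀ a, M.act (Sum.inr a) u = 0 := by
    intro a
    rw [hu, map_sub, ← hM.mul_r, ee_mul, sub_self]
  have k4 : q u = w := by
    rw [hu, map_sub, hq, hu1, map_sub, hq, hs, hw0, sub_zero, hw0, sub_zero]
  obtain ⟨g, hg⟩ : ∃ g : (triv A).carrier →L[ℂ] M.carrier, ∀ c : ℂ, g (mt A c) = c • u :=
    ⟨(ContinuousLinearMap.id ℂ ℂ).smulRight u, fun c => rfl⟩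
  refine ⟨g, ?_, fun x => ?_⟩
  · rintro (a | a) x
    · obtain ⟨c, hc⟩ := exists_mt x
      rw [hc, triv_act, map_zero, hg, map_smul, k2, smul_zero]
    · obtain ⟨c, hc⟩ := exists_mt x
      rw [hc, triv_act, map_zero, hg, map_smul, k3, smul_zero]
  · obtain ⟨c, hc⟩ := exists_mt x
    rw [hc, hg, map_smul, k4, hw, ← map_smul, mt_smul, mul_one]

section

variable [CompleteSpace A]

/-- The unitization as a bimodule. -/
def ub (A : Type) [NormedRing A] [NormedAlgebra ℂ A] [CompleteSpace A] : OpMod (A ⊕ A) where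
  carrier := A × ℂ
  act := Sum.elim
    (fun a => ((ContinuousLinearMap.mul ℂ A a).comp (ContinuousLinearMap.fst ℂ A ℂ) +
      (ContinuousLinearMap.snd ℂ A ℂ).smulRight a).prod 0)
    (fun a => (((ContinuousLinearMap.mul ℂ A).flip a).comp (ContinuousLinearMap.fst ℂ A ℂ) +
      (ContinuousLinearMap.snd ℂ A ℂ).smulRight a).prod 0)

lemma unitBi_eq : Td.unitBi A = up (ub A) := by
  unfold Td.unitBi up ub
  congr 1
  funext r
  rcases r with a | a
  · rfl
  · rfl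

/-- Elements. -/
def mu (b : A) (l : ℂ) : (ub A).carrier := (b, l)

lemma mu_inl (a b : A) (l : ℂ) : (ub A).act (Sum.inl a) (mu b l) = mu (a * b + l • a) 0 := rfl

lemma mu_inr (a b : A) (l : ℂ) : (ub A).act (Sum.inr a) (mu b l) = mu (b * a + l • a) 0 := rfl

lemma mu_add (b b' : A) (l l' : ℂ) : mu b l + mu b' l' = mu (b + b') (l + l') := rfl

lemma mu_smul (c : ℂ) (b : A) (l : ℂ) : c • mu b l = mu (c • b) (c * l) := rfl

lemma exists_mu (z : (ub A).carrier) : ∃ b l, z = mu b l := ⟨z.1, z.2, rfl⟩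

lemma ub_bi : BiMod A (ub A) where
  add_l a b x := by
    obtain ⟨c, l, rfl⟩ := exists_mu x
    rw [mu_inl, mu_inl, mu_inl, mu_add, add_mul, smul_add, add_zero]
    congr 1
    abel
  smul_l k a x := by
    obtain ⟨c, l, rfl⟩ := exists_mu x
    rw [mu_inl, mu_inl, mu_smul, smul_mul_assoc, smul_add, smul_comm l k, mul_zero]
  mul_l a b x := by
    obtain ⟨c, l, rfl⟩ := exists_mu x
    rw [mu_inl, mu_inl, mu_inl, mul_add, mul_smul_comm, zero_smul, add_zero, mul_assoc]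
  add_r a b x := by
    obtain ⟨c, l, rfl⟩ := exists_mu x
    rw [mu_inr, mu_inr, mu_inr, mu_add, mul_add, smul_add, add_zero]
    congr 1
    abel
  smul_r k a x := by
    obtain ⟨c, l, rfl⟩ := exists_mu x
    rw [mu_inr, mu_inr, mu_smul, mul_smul_comm, smul_add, smul_comm l k, mul_zero]
  mul_r a b x := by
    obtain ⟨c, l, rfl⟩ := exists_mu x
    rw [mu_inr, mu_inr, mu_inr, add_mul, smul_mul_assoc, zero_smul, add_zero, mul_assoc]
  comm a b x := by
    obtain ⟨c, l, rfl⟩ := exists_mu x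
    rw [mu_inl, mu_inr, mu_inr, mu_inl, mul_add, add_mul, mul_smul_comm, smul_mul_assoc,
      zero_smul, zero_smul, add_zero, add_zero, mul_assoc]
  bound := by
    refine ⟨2, fun a x => ?_⟩
    obtain ⟨b, l, rfl⟩ := exists_mu x
    have hb : ‖b‖ ≤ ‖mu b l‖ := norm_fst_le (E := A) (b, l)
    have hl : ‖l‖ ≤ ‖mu b l‖ := norm_snd_le (E := A) (b, l)
    have k0 : ‖a * b + l • a‖ ≤ 2 * ‖a‖ * ‖mu b l‖ := by
      calc _ ≤ ‖a‖ * ‖b‖ + ‖l‖ * ‖a‖ :=
            (norm_add_le _ _).trans (add_le_add (norm_mul_le _ _) (norm_smul _ _).le)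
        _ ≤ ‖a‖ * ‖mu b l‖ + ‖mu b l‖ * ‖a‖ := by gcongr
        _ = _ := by ring
    have k1 : ‖b * a + l • a‖ ≤ 2 * ‖a‖ * ‖mu b l‖ := by
      calc _ ≤ ‖b‖ * ‖a‖ + ‖l‖ * ‖a‖ :=
            (norm_add_le _ _).trans (add_le_add (norm_mul_le _ _) (norm_smul _ _).le)
        _ ≤ ‖mu b l‖ * ‖a‖ + ‖mu b l‖ * ‖a‖ := by gcongr
        _ = _ := by ring
    have k2 : ‖(0 : ℂ)‖ ≤ 2 * ‖a‖ * ‖mu b l‖ := by
      rw [norm_zero]
      positivity
    exact ⟨max_le k0 k2, max_le k1 k2⟩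

end

end

end Pool.Agent.Helper5.Tri
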