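import Mathlib
import Pool.Agent.Helper5.Tri.Fin2

/-!
The bidimension in the unitization form, and the final values.
-/

namespace Pool.Agent.Helper5.Tri

open Pool.Agent.Helper5 Pool.Agent.Helper5.Dg

noncomputable section

variable {A : Type} [NormedRing A] [NormedAlgebra ℂ A] {E : Type} [NormedAddCommGroup E]
  [NormedSpace ℂ E] [CompleteSpace E] (D : TD A E)

section

variable [CompleteSpace A]

include D in
lemma ub_ses {Z' P : OpMod (A ⊕ A)} (S : Ses (BiMod A) Z' P (regBi A)) :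
    Nonempty (Ses (BiMod A) Z' (dsum P (triv A)) (ub A)) := by
  obtain ⟨Sd, hSd⟩ : ∃ Sd : P.carrier →L[ℂ] A, ∀ p, mr (Sd p) = S.d p := ⟨S.d, fun p => rfl⟩
  obtain ⟨St, hSt⟩ : ∃ St : A →L[ℂ] P.carrier, ∀ a, St a = S.t (mr a) := ⟨S.t, fun p => rfl⟩
  have D1 : ∀ (a : A) p, Sd (P.act (Sum.inl a) p) = a * Sd p := by
    intro a p
    have h : mr (Sd (P.act (Sum.inl a) p)) = mr (a * Sd p) := by
      rw [hSd, S.mor_d, ← hSd, mr_inl]
    exact h
  have D2 : ∀ (a : A) p, Sd (P.act (Sum.inr a) p) = Sd p * a := by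
    intro a p
    have h : mr (Sd (P.act (Sum.inr a) p)) = mr (Sd p * a) := by
      rw [hSd, S.mor_d, ← hSd, mr_inr]
    exact h
  have D3 : ∀ a, Sd (St a) = a := by
    intro a
    have h : mr (Sd (St a)) = mr a := by
      rw [hSd, hSt, S.d_t]
    exact h
  have D4 : ∀ p, S.i (S.k p) + St (Sd p) = p := by
    intro p
    have h := S.split p
    rw [hSt, hSd]
    exact h
  obtain ⟨i, hi⟩ : ∃ i : Z'.carrier →L[ℂ] (dsum P (triv A)).carrier,
      ∀ z, i z = mkp P (triv A) (S.i z) (mt A 0) :=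
    ⟨show Z'.carrier →L[ℂ] P.carrier × ℂ from S.i.prod 0, fun z => rfl⟩
  obtain ⟨k, hk⟩ : ∃ k : (dsum P (triv A)).carrier →L[ℂ] Z'.carrier,
      ∀ p l, k (mkp P (triv A) p (mt A l)) = S.k p :=
    ⟨show P.carrier × ℂ →L[ℂ] Z'.carrier from
      S.k.comp (ContinuousLinearMap.fst ℂ P.carrier ℂ), fun z l => rfl⟩
  obtain ⟨d, hd⟩ : ∃ d : (dsum P (triv A)).carrier →L[ℂ] (ub A).carrier,
      ∀ p l, d (mkp P (triv A) p (mt A l)) = mu (Sd p - l • ee D) l :=
    ⟨show P.carrier × ℂ →L[ℂ] A × ℂ from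
      (Sd.comp (ContinuousLinearMap.fst ℂ P.carrier ℂ) -
        (ContinuousLinearMap.snd ℂ P.carrier ℂ).smulRight (ee D)).prod
          (ContinuousLinearMap.snd ℂ P.carrier ℂ), fun z l => rfl⟩
  obtain ⟨t, ht⟩ : ∃ t : (ub A).carrier →L[ℂ] (dsum P (triv A)).carrier,
      ∀ b l, t (mu b l) = mkp P (triv A) (St (b + l • ee D)) (mt A l) :=
    ⟨show A × ℂ →L[ℂ] P.carrier × ℂ from
      (St.comp (ContinuousLinearMap.fst ℂ A ℂ +
        (ContinuousLinearMap.snd ℂ A ℂ).smulRight (ee D))).prod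
          (ContinuousLinearMap.snd ℂ A ℂ), fun z l => rfl⟩
  have ex : ∀ z : (dsum P (triv A)).carrier, ∃ p l, z = mkp P (triv A) p (mt A l) :=
    fun z => ⟨z.1, z.2, rfl⟩
  have at0 : ∀ (r : A ⊕ A) p l, (dsum P (triv A)).act r (mkp P (triv A) p (mt A l)) =
      mkp P (triv A) (P.act r p) (mt A 0) := fun r p l => rfl
  refine ⟨{ i := i, d := d, k := k, t := t, mor_i := ?_, mor_d := ?_, k_i := ?_, d_t := ?_,
            split := ?_ }⟩
  · intro r z
    rw [hi, hi, at0, S.mor_i]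
  · rintro (a | a) z
    · obtain ⟨p, l, rfl⟩ := ex z
      rw [at0, hd, hd, mu_inl, D1, mul_sub, mul_smul_comm, mul_ee, sub_add_cancel, zero_smul,
        sub_zero]
    · obtain ⟨p, l, rfl⟩ := ex z
      rw [at0, hd, hd, mu_inr, D2, sub_mul, smul_mul_assoc, ee_mul, sub_add_cancel, zero_smul,
        sub_zero]
  · intro z
    rw [hi, hk, S.k_i]
  · intro z
    obtain ⟨b, l, rfl⟩ := exists_mu z
    rw [ht, hd, D3, add_sub_cancel_right]
  · intro z
    obtain ⟨p, l, rfl⟩ := ex z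
    have h1 : ∀ (x x' : P.carrier) (y y' : ℂ), mkp P (triv A) x (mt A y) +
      mkp P (triv A) x' (mt A y') = mkp P (triv A) (x + x') (mt A (y + y')) :=
        fun x x' y y' => rfl
    rw [hk, hd, hi, ht, sub_add_cancel, h1, D4, zero_add]

include D in
/-- The unitization has a projective resolution of length one. -/
theorem ub_resol : Nonempty (Resol (BiMod A) 1 (ub A)) := by
  obtain ⟨S⟩ := bi_ses D
  obtain ⟨S'⟩ := ub_ses D S
  exact ⟨resol_one zmod_bi (b3_bi D) (dsum_bi (dsum_bi (b1_bi D) (b2_bi D)) triv_bi) (b3_proj D)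
    (proj_dsum (proj_dsum (b1_proj D) (b2_proj D)) (triv_proj D)) S'⟩

lemma ext_nosplit {x : E} (hx : x ≠ 0) (g : A → (ext D).carrier)
    (hg1 : ∀ a b, g (a * b) = (ext D).act (Sum.inl a) (g b))
    (hg2 : ∀ a b, g (b * a) = (ext D).act (Sum.inr a) (g b))
    (hq : ∀ b, ∃ y, g b = me D b y) : False := by
  have e1 : D.e1 * D.io x = D.io x := by rw [D.mul_io, D.p1_e1, one_smul]
  have e2 : D.io x * D.e2 = D.io x := by rw [D.io_mul, D.p2_e2, one_smul]
  obtain ⟨y1, h1⟩ := hq D.e1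
  obtain ⟨y2, h2⟩ := hq D.e2
  have k1 := hg2 (D.io x) D.e1
  have k2 := hg1 (D.io x) D.e2
  rw [e1, h1, me_inr, D.p2_io, D.pE_io, zero_smul, zero_add, D.p1_e1, one_smul] at k1
  rw [e2, h2, me_inl, D.p1_io, zero_smul] at k2
  rw [k1] at k2
  have h4 : x = 0 := congrArg Prod.snd (show ((D.e1 * D.io x, x) : A × E) = (_, 0) from k2)
  exact hx h4

include D in
lemma ub_not_retr {x : E} (hx : x ≠ 0) : ¬ Retr (BiMod A) (ub A) := by
  intro h
  have ex : ∀ z : (dsum (ext D) (triv A)).carrier,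
      ∃ b y l, z = mkp (ext D) (triv A) (me D b y) (mt A l) := fun z => ⟨z.1.1, z.1.2, z.2, rfl⟩
  have at0 : ∀ (r : A ⊕ A) p l, (dsum (ext D) (triv A)).act r (mkp (ext D) (triv A) p (mt A l)) =
      mkp (ext D) (triv A) ((ext D).act r p) (mt A 0) := fun r p l => rfl
  obtain ⟨q, hq⟩ : ∃ q : (dsum (ext D) (triv A)).carrier →L[ℂ] (ub A).carrier,
      ∀ b y l, q (mkp (ext D) (triv A) (me D b y) (mt A l)) = mu (b - l • ee D) l :=
    ⟨show (A × E) × ℂ →L[ℂ] A × ℂ from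
      ((ContinuousLinearMap.fst ℂ A E).comp (ContinuousLinearMap.fst ℂ (A × E) ℂ) -
        (ContinuousLinearMap.snd ℂ (A × E) ℂ).smulRight (ee D)).prod
          (ContinuousLinearMap.snd ℂ (A × E) ℂ), fun b y l => rfl⟩
  obtain ⟨s, hs⟩ : ∃ s : (ub A).carrier →L[ℂ] (dsum (ext D) (triv A)).carrier,
      ∀ b l, s (mu b l) = mkp (ext D) (triv A) (me D (b + l • ee D) 0) (mt A l) :=
    ⟨show A × ℂ →L[ℂ] (A × E) × ℂ from
      ((ContinuousLinearMap.fst ℂ A ℂ +
        (ContinuousLinearMap.snd ℂ A ℂ).smulRight (ee D)).prod (0 : A × ℂ →L[ℂ] E)).prod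
          (ContinuousLinearMap.snd ℂ A ℂ), fun b l => rfl⟩
  obtain ⟨g, hg, hgq⟩ := h (dsum (ext D) (triv A)) (dsum_bi (ext_bi D) triv_bi) q (by
    rintro (a | a) z
    · obtain ⟨b, y, l, rfl⟩ := ex z
      rw [at0, me_inl, hq, hq, mu_inl, mul_sub, mul_smul_comm, mul_ee, sub_add_cancel, zero_smul,
        sub_zero]
    · obtain ⟨b, y, l, rfl⟩ := ex z
      rw [at0, me_inr, hq, hq, mu_inr, sub_mul, smul_mul_assoc, ee_mul, sub_add_cancel, zero_smul,
        sub_zero]) s (fun z => by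
    obtain ⟨b, l, rfl⟩ := exists_mu z
    rw [hs, hq, add_sub_cancel_right])
  obtain ⟨f, hf⟩ : ∃ f : (dsum (ext D) (triv A)).carrier → (ext D).carrier,
      ∀ p l, f (mkp (ext D) (triv A) p (mt A l)) = p := ⟨fun z => z.1, fun p l => rfl⟩
  refine ext_nosplit D hx (fun b => f (g (mu b 0))) (fun a b => ?_) (fun a b => ?_)
    (fun b => ?_)
  · obtain ⟨b', y, l, h1⟩ := ex (g (mu b 0))
    have h2 := hg (Sum.inl a) (mu b 0)
    rw [mu_inl, zero_smul, add_zero, h1, at0] at h2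
    show f (g (mu (a * b) 0)) = (ext D).act (Sum.inl a) (f (g (mu b 0)))
    rw [h2, h1, hf, hf]
  · obtain ⟨b', y, l, h1⟩ := ex (g (mu b 0))
    have h2 := hg (Sum.inr a) (mu b 0)
    rw [mu_inr, zero_smul, add_zero, h1, at0] at h2
    show f (g (mu (b * a) 0)) = (ext D).act (Sum.inr a) (f (g (mu b 0)))
    rw [h2, h1, hf, hf]
  · obtain ⟨b', y, l, h1⟩ := ex (g (mu b 0))
    have h2 := hgq (mu b 0)
    rw [h1, hq] at h2
    have h3 : l = 0 := congrArg Prod.snd (show ((b' - l • ee D, l) : A × ℂ) = (b, 0) from h2)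
    have h4 : b' - l • ee D = b :=
      congrArg Prod.fst (show ((b' - l • ee D, l) : A × ℂ) = (b, 0) from h2)
    rw [h3, zero_smul, sub_zero] at h4
    refine ⟨y, ?_⟩
    show f (g (mu b 0)) = me D b y
    rw [h1, hf, h4]

include D in
/-- The bidimension is one. -/
theorem db_eq {x : E} (hx : x ≠ 0) : Td.db A = 1 := by
  refine le_antisymm ?_ ?_
  · obtain ⟨Q⟩ := ub_resol D
    have h := dh_up_le (rel_bi A) Q
    unfold Td.db
    rw [unitBi_eq]
    exact_mod_cast h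
  · unfold Td.db
    rw [unitBi_eq]
    exact one_le_dh (rel_bi A) (ub_not_retr D hx)

end

include D in
/-- The global dimension is one. -/
theorem dg_eq {x : E} (hx : x ≠ 0) : Td.dg A = 1 := by
  refine le_antisymm ?_ ?_
  · refine iSup₂_le fun X hX => ?_
    obtain ⟨Q⟩ := left_resol D ((rel_left A).dn X hX)
    have h := dh_dn_le (rel_left A) X hX Q
    exact_mod_cast h
  · have h1 := one_le_dh (rel_left A) (S2_not_retr D hx)
    exact h1.trans (le_iSup₂ (f := fun (X : Hd.OpMod A) (_ : Hd.LeftMod A X) =>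
      Td.dh (Hd.LeftMod A) X) (up (S2 D)) ((rel_left A).up _ (S2_left D)))

/-- The concrete algebra. -/
theorem TA_dg : Td.dg TA = 1 := by
  obtain ⟨x, hx⟩ := exists_ne
  exact dg_eq dT hx

/-- The concrete algebra. -/
theorem TA_db : Td.db TA = 1 := by
  obtain ⟨x, hx⟩ := exists_ne
  exact db_eq dT hx

theorem TA_invol : Td.IsInvol TA st where
  add := st_add
  smul := st_smul
  mul := st_mul
  invol := st_st
  isom := norm_st

end

end Pool.Agent.Helper5.Tri
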